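import Pool.Agent.Helper9.VI.Cc.Weights

/-!
# VI-C3: basic projections

PROOF. `a ∈ S.basic`: `a x j k = v j * conj (v k)` constant with a unit vector `v` supported on indices of
weight zero.
* `basic_proj`: `a * a = a`, `star a = a` (entries).
* `basic_equiv`: for `v`, `v'` the constant function `g x j k = v' j * conj (v k)` has entries of weight
  `0 = w j - w k` whenever it is not zero; `star g * g = e`, `g * star g = e'`.
* `basic_alpha`: `alpha c i a` has the vector `v'` with `v' (eL i j) = v j`, zero elsewhere; the weight of `eL i j` is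
  `0` if the weight of `j` is `0`.
* `basic_full`: `exists_wt (-(S.w j))` for each `j` gives functions `f_{j,i}` of weight `- w j` with
  `∑_i |f_{j,i}|² = 1`; `r_{j,i} x a b = v a * f_{j,i} x` if `b = j`, zero otherwise (weight `w a - w j = - w j` when
  `v a ≠ 0`); `e * r = r` and `star r * r` is the diagonal unit `e_jj` times `|f_{j,i}|²`. Sum over `j, i` is `1`.
  (Index the finite family by `Fin k` via an equivalence.)
* `basic_nonempty`: `v = Pi.single j 1` with `w j = 0`.
-/

namespace Pool.Agent.Helper9.VI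

open Filter Topology
open scoped ComplexOrder ENNReal NNReal ComplexConjugate

noncomputable section

namespace Stage

/-- the element of a stage with given entries -/
def ofE (S : Stage) (f : S.J → S.J → C(X S.G, ℂ))
    (hf : ∀ j k, HasWt (S.w j - S.w k) (f j k)) : S.A :=
  ⟨FA.mk ⟨fun x => (fun j k => f j k x : Matrix S.J S.J ℂ),
    continuous_pi fun j => continuous_pi fun k => (f j k).continuous⟩, fun j k => hf j k⟩

theorem ofE_apply (S : Stage) (f : S.J → S.J → C(X S.G, ℂ))
    (hf : ∀ j k, HasWt (S.w j - S.w k) (f j k)) (x : X S.G) (j k : S.J) :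
    (S.ofE f hf).1 x j k = f j k x := rfl

theorem ext_entry (S : Stage) (a b : S.A) (h : ∀ x j k, a.1 x j k = b.1 x j k) : a = b := by
  apply Subtype.ext
  ext x j k
  exact h x j k

theorem mul_entry (S : Stage) (a b : S.A) (x : X S.G) (j k : S.J) :
    (a * b).1 x j k = ∑ i, a.1 x j i * b.1 x i k := rfl

theorem star_entry (S : Stage) (a : S.A) (x : X S.G) (j k : S.J) :
    (star a).1 x j k = conj (a.1 x k j) := rfl

theorem one_entry (S : Stage) (x : X S.G) (j k : S.J) :
    (1 : S.A).1 x j k = if j = k then 1 else 0 := rfl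

theorem sum_entry (S : Stage) {ι : Type} (T : Finset ι) (f : ι → S.A) (x : X S.G) (j k : S.J) :
    (∑ i ∈ T, f i).1 x j k = ∑ i ∈ T, (f i).1 x j k := by
  induction T using Finset.cons_induction with
  | empty => rw [Finset.sum_empty, Finset.sum_empty]; rfl
  | cons i T hi ih => rw [Finset.sum_cons, Finset.sum_cons, ← ih]; rfl

/-- the constant rank one element `v u*` -/
def ro (S : Stage) (v u : S.J → ℂ) (hv : ∀ j, v j ≠ 0 → S.w j = 0)
    (hu : ∀ j, u j ≠ 0 → S.w j = 0) : S.A :=
  S.ofE (fun j k => ContinuousMap.const _ (v j * conj (u k))) (by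
    intro j k
    by_cases h1 : v j = 0
    · have : ((ContinuousMap.const (X S.G) (v j * conj (u k)) : C(X S.G, ℂ)) : X S.G → ℂ) =
          fun _ => 0 := by
        funext x; simp [h1]
      rw [this]; exact HasWt.zero _
    · by_cases h2 : u k = 0
      · have : ((ContinuousMap.const (X S.G) (v j * conj (u k)) : C(X S.G, ℂ)) : X S.G → ℂ) =
            fun _ => 0 := by
          funext x; simp [h2]
        rw [this]; exact HasWt.zero _
      · rw [hv j h1, hu k h2, sub_zero]
        exact HasWt.const _)

theorem ro_apply (S : Stage) (v u : S.J → ℂ) (hv : ∀ j, v j ≠ 0 → S.w j = 0)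
    (hu : ∀ j, u j ≠ 0 → S.w j = 0) (x : X S.G) (j k : S.J) :
    (S.ro v u hv hu).1 x j k = v j * conj (u k) := rfl

theorem sum_conj_mul_self {J : Type} [Fintype J] (v : J → ℂ) (hv : ∑ j, ‖v j‖ ^ 2 = 1) :
    ∑ j, conj (v j) * v j = 1 := by
  have : ∀ j, conj (v j) * v j = ((‖v j‖ ^ 2 : ℝ) : ℂ) := fun j => by
    rw [Complex.conj_mul']; norm_cast
  simp only [this]
  rw [← Complex.ofReal_sum, hv, Complex.ofReal_one]

theorem basic_nonempty (S : Stage) (j : S.J) (hj : S.w j = 0) : S.basic.Nonempty := by
  have h : ∀ k, (Pi.single j (1 : ℂ) : S.J → ℂ) k ≠ 0 → S.w k = 0 := by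
    intro k hk
    by_cases h : k = j
    · rw [h, hj]
    · exact absurd (Pi.single_eq_of_ne h _) hk
  refine ⟨S.ro (Pi.single j 1) (Pi.single j 1) h h, Pi.single j 1, ?_, h, fun x a b => rfl⟩
  rw [Finset.sum_eq_single j]
  · simp
  · intro b _ hb
    rw [Pi.single_eq_of_ne hb]; simp
  · simp

theorem basic_proj (S : Stage) (e : S.A) (he : e ∈ S.basic) : IsStarProjection e := by
  obtain ⟨v, hv, -, hv2⟩ := he
  refine ⟨?_, ?_⟩
  · change e * e = e
    refine S.ext_entry _ _ fun x j k => ?_
    rw [mul_entry]
    simp only [hv2]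
    have : ∀ i, v j * conj (v i) * (v i * conj (v k)) = v j * conj (v k) * (conj (v i) * v i) :=
      fun i => by ring
    simp only [this]
    rw [← Finset.mul_sum, sum_conj_mul_self v hv, mul_one]
  · change star e = e
    refine S.ext_entry _ _ fun x j k => ?_
    rw [star_entry]
    simp only [hv2, map_mul, Complex.conj_conj]
    ring

theorem basic_equiv (S : Stage) (e : S.A) (he : e ∈ S.basic) (e' : S.A) (he' : e' ∈ S.basic) :
    ∃ g : S.A, star g * g = e ∧ g * star g = e' := by
  obtain ⟨v, hv, hv1, hv2⟩ := he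
  obtain ⟨u, hu, hu1, hu2⟩ := he'
  refine ⟨S.ro u v hu1 hv1, ?_, ?_⟩
  · refine S.ext_entry _ _ fun x j k => ?_
    rw [mul_entry]
    simp only [star_entry, ro_apply, hv2, map_mul, Complex.conj_conj]
    have : ∀ i, conj (u i) * v j * (u i * conj (v k)) = v j * conj (v k) * (conj (u i) * u i) :=
      fun i => by ring
    simp only [this]
    rw [← Finset.mul_sum, sum_conj_mul_self u hu, mul_one]
  · refine S.ext_entry _ _ fun x j k => ?_
    rw [mul_entry]
    simp only [star_entry, ro_apply, hu2, map_mul, Complex.conj_conj]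
    have : ∀ i, u j * conj (v i) * (conj (u k) * v i) = u j * conj (u k) * (conj (v i) * v i) :=
      fun i => by ring
    simp only [this]
    rw [← Finset.mul_sum, sum_conj_mul_self v hv, mul_one]

theorem basic_alpha (S : Stage) (c : ℕ) (i : Fin c) (e : S.A) (he : e ∈ S.basic) :
    S.alpha c i e ∈ (S.next c).basic := by
  obtain ⟨v, hv, hv1, hv2⟩ := he
  have hinj : Function.Injective (S.eL c i) := (S.eL c i).injective
  have hr : ∀ j, Function.extend (S.eL c i) v 0 (S.eL c i j) = v j := fun j =>
    hinj.extend_apply v 0 j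
  have hn : ∀ a, (¬ ∃ j, S.eL c i j = a) → Function.extend (S.eL c i) v 0 a = 0 := fun a ha => by
    rw [Function.extend_apply' _ _ _ ha]; rfl
  refine ⟨Function.extend (S.eL c i) v 0, ?_, ?_, ?_⟩
  · rw [← hv]
    symm
    refine Fintype.sum_of_injective (S.eL c i) hinj _ _ ?_ ?_
    · intro a ha
      rw [hn a ha]; simp
    · intro j
      rw [hr]
  · intro a ha
    by_cases h : ∃ j, S.eL c i j = a
    · obtain ⟨j, rfl⟩ := h
      rw [hr] at ha
      have h0 := hv1 j ha
      funext g
      rcases g with p | p
      · change (if p.2 = i then S.w j p.1 else 0) = 0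
        rw [h0]; simp
      · rfl
    · exact absurd (hn a h) ha
  · intro x a b
    rw [alpha_apply]
    by_cases h : ∃ j, S.eL c i j = a
    · by_cases h' : ∃ k, S.eL c i k = b
      · obtain ⟨j, rfl⟩ := h
        obtain ⟨k, rfl⟩ := h'
        rw [blk_emb, hr, hr, hv2]
      · rw [hn b h', map_zero, mul_zero]
        exact blk_eq_zero _ _ _ _ (Or.inr fun k hk => h' ⟨k, hk.symm⟩)
    · rw [hn a h, zero_mul]
      exact blk_eq_zero _ _ _ _ (Or.inl fun k hk => h ⟨k, hk.symm⟩)

theorem basic_full (S : Stage) (e : S.A) (he : e ∈ S.basic) :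
    ∃ (k : ℕ) (r : Fin k → S.A), ∑ i, star (r i) * e * r i = 1 := by
  obtain ⟨v, hv, hv1, hv2⟩ := he
  choose K f hf hf1 using fun j : S.J => exists_wt (-(S.w j))
  -- the elements
  let R : (Σ j : S.J, Fin (K j)) → S.A := fun p =>
    S.ofE (fun a b => if b = p.1 then v a • f p.1 p.2 else 0) (by
      intro a b
      by_cases hb : b = p.1
      · subst hb
        rw [if_pos rfl]
        by_cases ha : v a = 0
        · rw [ha, zero_smul]
          exact HasWt.zero _
        · rw [hv1 a ha, zero_sub]
          exact (hf p.1 p.2).smul (v a)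
      · rw [if_neg hb]
        exact HasWt.zero _)
  have hR : ∀ p x a b, (R p).1 x a b = if b = p.1 then v a * f p.1 p.2 x else 0 := by
    intro p x a b
    change (if b = p.1 then v a • f p.1 p.2 else 0 : C(X S.G, ℂ)) x = _
    by_cases hb : b = p.1
    · rw [if_pos hb, if_pos hb]; rfl
    · rw [if_neg hb, if_neg hb]; rfl
  have h1 : ∀ p, e * R p = R p := by
    intro p
    refine S.ext_entry _ _ fun x a b => ?_
    rw [mul_entry]
    simp only [hR, hv2]
    by_cases hb : b = p.1
    · simp only [if_pos hb]
      have : ∀ i, v a * conj (v i) * (v i * f p.1 p.2 x) =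
          v a * f p.1 p.2 x * (conj (v i) * v i) := fun i => by ring
      simp only [this]
      rw [← Finset.mul_sum, sum_conj_mul_self v hv, mul_one]
    · simp only [if_neg hb, mul_zero, Finset.sum_const_zero]
  have h2 : ∀ p x a b, (star (R p) * e * R p).1 x a b =
      if a = p.1 ∧ b = p.1 then conj (f p.1 p.2 x) * f p.1 p.2 x else 0 := by
    intro p x a b
    rw [mul_assoc, h1, mul_entry]
    simp only [star_entry, hR]
    by_cases ha : a = p.1
    · by_cases hb : b = p.1
      · simp only [ha, hb, and_self, if_true, map_mul]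
        have : ∀ i, conj (v i) * conj (f p.1 p.2 x) * (v i * f p.1 p.2 x) =
            conj (f p.1 p.2 x) * f p.1 p.2 x * (conj (v i) * v i) := fun i => by ring
        simp only [this]
        rw [← Finset.mul_sum, sum_conj_mul_self v hv, mul_one]
      · simp [hb]
    · simp [ha]
  have h3 : ∑ p, star (R p) * e * R p = 1 := by
    refine S.ext_entry _ _ fun x a b => ?_
    rw [sum_entry, one_entry]
    simp only [h2]
    rw [Fintype.sum_sigma]
    by_cases hab : a = b
    · subst hab
      rw [if_pos rfl, Finset.sum_eq_single a]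
      · simp only [and_self, if_true]
        have : ∀ i, conj (f a i x) * f a i x = ((‖f a i x‖ ^ 2 : ℝ) : ℂ) := fun i => by
          rw [Complex.conj_mul']; norm_cast
        simp only [this]
        rw [← Complex.ofReal_sum, hf1 a x, Complex.ofReal_one]
      · intro j _ hj
        refine Finset.sum_eq_zero fun i _ => ?_
        rw [if_neg]
        exact fun h => hj h.1.symm
      · simp
    · rw [if_neg hab]
      refine Finset.sum_eq_zero fun j _ => Finset.sum_eq_zero fun i _ => ?_
      rw [if_neg]
      exact fun h => hab (h.1.trans h.2.symm)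
  refine ⟨Fintype.card (Σ j : S.J, Fin (K j)),
    fun i => R ((Fintype.equivFin (Σ j : S.J, Fin (K j))).symm i), ?_⟩
  rw [Equiv.sum_comp (Fintype.equivFin (Σ j : S.J, Fin (K j))).symm
    (fun p => star (R p) * e * R p), h3]

end Stage

end

end Pool.Agent.Helper9.VI
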