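import Pool.Agent.Helper9.VI.Cc.Stage

/-!
# VI-C4: `beta` of a rank one projection is basic

PROOF. A star projection `E` of trace `1` in `Mx J` has the form `E j k = v j * conj (v k)` with a unit
vector `v` (`rank_one`: `E ≠ 0`; choose a non-zero column `u = E e_k`, normalise to `v`, `E v = v`;
`E' = E - v v*` satisfies `E' * E' = E'`, `star E' = E'`, trace `0`; the trace of `star E' * E'` is the sum of the
`|E' j k|²`, so `E' = 0`). Then `beta c none E` has the vector `v` on the block `eR none`, where all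
weights are `0`.
-/

namespace Pool.Agent.Helper9.VI

open Filter Topology
open scoped ComplexOrder ENNReal NNReal ComplexConjugate

noncomputable section

theorem rank_one {J : Type} [Fintype J] [DecidableEq J] (E : Mx J) (hE : IsStarProjection E)
    (h1 : E.tr = 1) : ∃ v : J → ℂ, ∑ j, ‖v j‖ ^ 2 = 1 ∧ ∀ j k, E j k = v j * conj (v k) := by
  have hmul : ∀ j k, ∑ i, E j i * E i k = E j k := fun j k =>
    congrFun (congrFun (congrArg (fun M : Mx J => (M : J → J → ℂ)) hE.1) j) k
  have hst : ∀ j k, conj (E k j) = E j k := fun j k =>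
    congrFun (congrFun (congrArg (fun M : Mx J => (M : J → J → ℂ)) hE.2) j) k
  have htr : ∑ j, E j j = 1 := h1
  -- a non-zero diagonal entry
  obtain ⟨k, hk⟩ : ∃ k, E k k ≠ 0 := by
    by_contra hcon
    push Not at hcon
    rw [Finset.sum_eq_zero fun j _ => hcon j] at htr
    exact zero_ne_one htr
  -- the diagonal entry is the square sum of the column
  have hcol : ∀ k, E k k = ((∑ i, ‖E i k‖ ^ 2 : ℝ) : ℂ) := by
    intro k
    rw [← hmul k k, Complex.ofReal_sum]
    refine Finset.sum_congr rfl fun i _ => ?_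
    rw [← hst k i, Complex.conj_mul']
    norm_cast
  set s : ℝ := ∑ i, ‖E i k‖ ^ 2 with hs
  have hs0 : 0 ≤ s := Finset.sum_nonneg fun i _ => by positivity
  have hs1 : s ≠ 0 := fun h => hk (by rw [hcol k, ← hs, h, Complex.ofReal_zero])
  have hsp : 0 < s := lt_of_le_of_ne hs0 (Ne.symm hs1)
  have hsq : (Real.sqrt s) ^ 2 = s := Real.sq_sqrt hs0
  have hsqp : 0 < Real.sqrt s := Real.sqrt_pos.2 hsp
  have hEkk : E k k = (s : ℂ) := by rw [hcol k]
  set v : J → ℂ := fun i => E i k / (Real.sqrt s : ℂ) with hv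
  have hvn : ∑ j, ‖v j‖ ^ 2 = 1 := by
    have : ∀ j, ‖v j‖ ^ 2 = ‖E j k‖ ^ 2 / s := by
      intro j
      rw [hv]
      simp only [norm_div, Complex.norm_real, Real.norm_eq_abs, abs_of_pos hsqp, div_pow, hsq]
    simp only [this]
    rw [← Finset.sum_div, ← hs, div_self hs1]
  have hsc : (Real.sqrt s : ℂ) * (Real.sqrt s : ℂ) = (s : ℂ) := by
    rw [← Complex.ofReal_mul, ← sq, hsq]
  have hscne : (Real.sqrt s : ℂ) ≠ 0 := by
    rw [Ne, Complex.ofReal_eq_zero]; exact hsqp.ne'
  have hsne : (s : ℂ) ≠ 0 := by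
    rw [Ne, Complex.ofReal_eq_zero]; exact hs1
  have hvv : ∀ i j, v i * conj (v j) = E i k * E k j / (s : ℂ) := by
    intro i j
    rw [hv]
    simp only [map_div₀, Complex.conj_ofReal, hst k j]
    rw [div_mul_div_comm, hsc]
  -- the difference
  set D : J → J → ℂ := fun i j => E i j - v i * conj (v j) with hD
  have hDst : ∀ i j, conj (D j i) = D i j := by
    intro i j
    simp only [hD, map_sub, map_mul, Complex.conj_conj, hst]
    ring
  have hDD : ∀ i j, ∑ l, D i l * D l j = D i j := by
    intro i j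
    have e1 : ∀ l, D i l * D l j = E i l * E l j - E i k * (E k l * E l j) / s
        - (E i l * E l k) * E k j / s + E i k * (E k l * E l k) * E k j / (s * s) := by
      intro l
      simp only [hD, hvv]
      field_simp
      ring
    simp only [e1]
    rw [Finset.sum_add_distrib, Finset.sum_sub_distrib, Finset.sum_sub_distrib, hmul i j]
    rw [← Finset.sum_div, ← Finset.mul_sum, hmul k j, ← Finset.sum_div, ← Finset.sum_mul, hmul i k,
      ← Finset.sum_div, ← Finset.sum_mul, ← Finset.mul_sum, hmul k k, hEkk]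
    simp only [hD, hvv]
    field_simp
    ring
  have hDtr : ∑ i, D i i = 0 := by
    simp only [hD]
    rw [Finset.sum_sub_distrib, htr]
    have : ∀ i, v i * conj (v i) = ((‖v i‖ ^ 2 : ℝ) : ℂ) := fun i => by
      rw [Complex.mul_conj']; norm_cast
    simp only [this]
    rw [← Complex.ofReal_sum, hvn, Complex.ofReal_one, sub_self]
  have hD2 : ∑ i, ∑ l, ‖D i l‖ ^ 2 = 0 := by
    have : ((∑ i, ∑ l, ‖D i l‖ ^ 2 : ℝ) : ℂ) = ∑ i, D i i := by
      rw [Complex.ofReal_sum]
      refine Finset.sum_congr rfl fun i _ => ?_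
      rw [← hDD i i, Complex.ofReal_sum]
      refine Finset.sum_congr rfl fun l _ => ?_
      rw [← hDst l i, Complex.mul_conj']
      norm_cast
    rw [hDtr] at this
    exact_mod_cast this
  have hD0 : ∀ i l, D i l = 0 := by
    intro i l
    have h2 := (Finset.sum_eq_zero_iff_of_nonneg
      (fun i _ => Finset.sum_nonneg fun l _ => by positivity)).1 hD2 i (Finset.mem_univ i)
    have h3 := (Finset.sum_eq_zero_iff_of_nonneg (fun l _ => by positivity)).1 h2 l
      (Finset.mem_univ l)
    simpa using h3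
  exact ⟨v, hvn, fun i l => sub_eq_zero.1 (hD0 i l)⟩

namespace Stage

theorem basic_beta (S : Stage) (c : ℕ) (E : Mx S.J) (hE : IsStarProjection E) (h1 : E.tr = 1) :
    S.beta c none E ∈ (S.next c).basic := by
  obtain ⟨v, hv, hv2⟩ := rank_one E hE h1
  have hinj : Function.Injective (S.eR c none) := (S.eR c none).injective
  have hr : ∀ j, Function.extend (S.eR c none) v 0 (S.eR c none j) = v j := fun j =>
    hinj.extend_apply v 0 j
  have hn : ∀ a, (¬ ∃ j, S.eR c none j = a) → Function.extend (S.eR c none) v 0 a = 0 :=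
    fun a ha => by
      rw [Function.extend_apply' _ _ _ ha]; rfl
  refine ⟨Function.extend (S.eR c none) v 0, ?_, ?_, ?_⟩
  · rw [← hv]
    symm
    refine Fintype.sum_of_injective (S.eR c none) hinj _ _ ?_ ?_
    · intro a ha
      rw [hn a ha]; simp
    · intro j
      rw [hr]
  · intro a ha
    by_cases h : ∃ j, S.eR c none j = a
    · obtain ⟨j, rfl⟩ := h
      rfl
    · exact absurd (hn a h) ha
  · intro x a b
    rw [beta_apply]
    by_cases h : ∃ j, S.eR c none j = a
    · by_cases h' : ∃ k, S.eR c none k = b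
      · obtain ⟨j, rfl⟩ := h
        obtain ⟨k, rfl⟩ := h'
        rw [blk_emb, hr, hr, hv2]
      · rw [hn b h', map_zero, mul_zero]
        exact blk_eq_zero _ _ _ _ (Or.inr fun k hk => h' ⟨k, hk.symm⟩)
    · rw [hn a h, zero_mul]
      exact blk_eq_zero _ _ _ _ (Or.inl fun k hk => h ⟨k, hk.symm⟩)

end Stage

end

end Pool.Agent.Helper9.VI
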