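import Pool.Agent.Helper9.VI.Sys

/-!
# Block embeddings of matrices
-/

namespace Pool.Agent.Helper9.VI

open Filter Topology
open scoped ComplexOrder ENNReal NNReal ComplexConjugate

noncomputable section

variable {J J' : Type} [Fintype J] [DecidableEq J] [Fintype J'] [DecidableEq J']

/-- the isometry of an embedding of index sets -/
def Vm (e : J ↪ J') : Matrix J' J ℂ := fun a j => if a = e j then 1 else 0

theorem Vm_conj_mul (e : J ↪ J') : (Vm e).conjTranspose * Vm e = 1 := by
  ext j k
  simp only [Matrix.mul_apply, Matrix.conjTranspose_apply, Vm, Matrix.one_apply]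
  by_cases h : j = k
  · subst h
    simp
  · rw [if_neg h]
    refine Finset.sum_eq_zero fun x _ => ?_
    by_cases h1 : x = e j
    · have h3 : x ≠ e k := fun h2 => h (e.injective (h1.symm.trans h2))
      rw [if_neg h3, mul_zero]
    · rw [if_neg h1, star_zero, zero_mul]

/-- the block embedding -/
def blkFun (e : J ↪ J') (B : Matrix J J ℂ) : Matrix J' J' ℂ :=
  Vm e * B * (Vm e).conjTranspose

theorem blkFun_apply (e : J ↪ J') (B : Matrix J J ℂ) (a b : J') :
    blkFun e B a b = ∑ j, ∑ k, if a = e j ∧ b = e k then B j k else 0 := by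
  simp only [blkFun, Matrix.mul_apply, Matrix.conjTranspose_apply, Vm, Finset.sum_mul]
  rw [Finset.sum_comm]
  refine Finset.sum_congr rfl fun j _ => Finset.sum_congr rfl fun k _ => ?_
  by_cases h1 : a = e j <;> by_cases h2 : b = e k <;> simp [h1, h2]

theorem blkFun_emb (e : J ↪ J') (B : Matrix J J ℂ) (j k : J) : blkFun e B (e j) (e k) = B j k := by
  rw [blkFun_apply]
  rw [Finset.sum_eq_single j, Finset.sum_eq_single k] <;> simp +contextual [eq_comm]

theorem blkFun_eq_zero (e : J ↪ J') (B : Matrix J J ℂ) (a b : J')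
    (h : (∀ j, a ≠ e j) ∨ ∀ k, b ≠ e k) : blkFun e B a b = 0 := by
  rw [blkFun_apply]
  refine Finset.sum_eq_zero fun j _ => Finset.sum_eq_zero fun k _ => ?_
  rw [if_neg]
  rintro ⟨h1, h2⟩
  rcases h with h | h
  · exact h j h1
  · exact h k h2

theorem blkFun_smul (e : J ↪ J') (r : ℂ) (B : Matrix J J ℂ) :
    blkFun e (r • B) = r • blkFun e B := by
  simp only [blkFun, Matrix.mul_smul, Matrix.smul_mul]

theorem blkFun_add (e : J ↪ J') (B C : Matrix J J ℂ) :
    blkFun e (B + C) = blkFun e B + blkFun e C := by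
  simp only [blkFun, Matrix.mul_add, Matrix.add_mul]

theorem blkFun_mul (e : J ↪ J') (B C : Matrix J J ℂ) :
    blkFun e (B * C) = blkFun e B * blkFun e C := by
  have h := Vm_conj_mul e
  calc Vm e * (B * C) * (Vm e).conjTranspose
      = Vm e * B * (1 : Matrix J J ℂ) * C * (Vm e).conjTranspose := by
        rw [Matrix.mul_one]; simp only [Matrix.mul_assoc]
    _ = blkFun e B * blkFun e C := by
        rw [← h]; simp only [blkFun, Matrix.mul_assoc]

theorem blkFun_star (e : J ↪ J') (B : Matrix J J ℂ) :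
    blkFun e B.conjTranspose = (blkFun e B).conjTranspose := by
  simp only [blkFun, Matrix.conjTranspose_mul, Matrix.conjTranspose_conjTranspose,
    Matrix.mul_assoc]

/-- the block embedding as a *-homomorphism -/
def blk (e : J ↪ J') : Mx J →⋆ₙₐ[ℂ] Mx J' where
  toFun B := CStarMatrix.ofMatrix (blkFun e (CStarMatrix.ofMatrix.symm B))
  map_smul' r B := blkFun_smul e r _
  map_zero' := by
    change blkFun e 0 = 0
    simp [blkFun]
  map_add' B C := blkFun_add e _ _
  map_mul' B C := blkFun_mul e _ _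
  map_star' B := blkFun_star e _

theorem blk_apply (e : J ↪ J') (B : Mx J) (a b : J') :
    blk e B a b = ∑ j, ∑ k, if a = e j ∧ b = e k then B j k else 0 := blkFun_apply e _ a b

theorem blk_emb (e : J ↪ J') (B : Mx J) (j k : J) : blk e B (e j) (e k) = B j k :=
  blkFun_emb e _ j k

theorem blk_eq_zero (e : J ↪ J') (B : Mx J) (a b : J')
    (h : (∀ j, a ≠ e j) ∨ ∀ k, b ≠ e k) : blk e B a b = 0 := blkFun_eq_zero e _ a b h

theorem blk_injective (e : J ↪ J') : Function.Injective (blk e) := by
  intro B C h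
  ext j k
  rw [← blk_emb e B j k, h, blk_emb]

theorem norm_blk (e : J ↪ J') (B : Mx J) : ‖blk e B‖ = ‖B‖ := by
  exact NonUnitalStarAlgHom.norm_map (blk e) (blk_injective e) B

end

end Pool.Agent.Helper9.VI
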