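import Pool.Agent.Helper9.VI.Cc.Points
import Pool.Agent.Helper9.VI.Cc.Basic
import Pool.Agent.Helper9.VI.Cc.BasicB

/-!
# The concrete system
-/

namespace Pool.Agent.Helper9.VI

open Filter Topology
open scoped ComplexOrder ENNReal NNReal ComplexConjugate

noncomputable section

namespace Stage

theorem dg_add (S : Stage) (f g : Bool → ℂ) : S.dg f + S.dg g = S.dg (f + g) := by
  simp only [dg, ← Finset.sum_add_distrib, Pi.add_apply, add_smul]

theorem up_dg (x : ∀ n, X (stage n).G) (f : Bool → ℂ) :
    ∀ n, (thePre x).up n ((stage 0).dg f) = (stage n).dg f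
  | 0 => rfl
  | n + 1 => by
    change (thePre x).phi n ((thePre x).up n ((stage 0).dg f)) = _
    rw [up_dg x f n]
    exact (stage n).dg_next (7 * 3 ^ n) f (x n)

theorem exists_wt_zero (n : ℕ) : ∃ j : (stage n).J, (stage n).w j = 0 := by
  induction n with
  | zero => exact ⟨(0 : Fin 3), rfl⟩
  | succ n ih =>
    obtain ⟨j, _⟩ := ih
    exact ⟨Sum.inr (j, none), rfl⟩

theorem dg_false_base : base.dg (fun b => if b then 0 else 1) = base.unit (0 : Fin 3) := by
  apply Subtype.ext
  apply FA.ext
  intro x
  ext j k
  rw [dg_apply, unit_apply]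
  revert j k
  change ∀ j k : Fin 3, _
  intro j k
  fin_cases j <;> fin_cases k <;> simp [base]

theorem dg_true_base : base.dg (fun b => if b then 1 else 0) =
    base.unit (1 : Fin 3) + base.unit (2 : Fin 3) := by
  apply Subtype.ext
  apply FA.ext
  intro x
  ext j k
  rw [dg_apply]
  change _ = (base.unit (1 : Fin 3)).1 x j k + (base.unit (2 : Fin 3)).1 x j k
  rw [unit_apply, unit_apply]
  revert j k
  change ∀ j k : Fin 3, _
  intro j k
  fin_cases j <;> fin_cases k <;> simp [base]

/-- the system -/
def theSys : Sys :=
  let x := Classical.choose exists_points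
  have hx := Classical.choose_spec exists_points
  { thePre x with
    basic := fun n => (stage n).basic
    basic_ne := fun n => by
      obtain ⟨j, hj⟩ := exists_wt_zero n
      exact (stage n).basic_nonempty j hj
    basic_proj := fun n => (stage n).basic_proj
    basic_equiv := fun n => (stage n).basic_equiv
    basic_α := fun n i => (stage n).basic_alpha _ i
    basic_β := fun n E => (stage n).basic_beta _ E
    basic_full := fun n => (stage n).basic_full
    norm_ev := fun n a ε hε => hx n a ε hε
    trace_β := fun n σ hσ h1 t B => by
      have h := (stage n).trace_beta (7 * 3 ^ n) inferInstance σ hσ h1 t B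
      exact h
    d := fun i => base.unit (show Fin 3 from i)
    d_proj := fun i => base.unit_proj _
    d_sum := by
      have h := base.sum_unit
      have h2 : ∑ j : Fin 3, base.unit j = 1 := h
      rw [Fin.sum_univ_three] at h2
      exact h2
    D := base.diag
    D_comm := fun a ha b hb => base.diag_comm a ha b hb
    d_equiv := fun i => by
      obtain ⟨k, u, h1, h2, h3, h4⟩ := base.unit_equiv (0 : Fin 3) (show Fin 3 from i)
      exact ⟨k, u, fun l => h1 l, fun l => h2 l, h3, h4⟩
    nocomp := fun n v => by
      have h := (stage n).no_comp n (good_stage n) v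
      rw [← up_dg x _ n, ← up_dg x _ n] at h
      change ¬ ‖v * (thePre x).up n (base.unit (1 : Fin 3) + base.unit (2 : Fin 3)) * star v -
        (thePre x).up n (base.unit (0 : Fin 3))‖ < 1
      rw [← dg_true_base, ← dg_false_base]
      exact h }

end Stage

end

end Pool.Agent.Helper9.VI
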