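import Pool.Agent.Helper9.VI.Cc.Stage

/-!
# VI-C7: coefficient vector of a product of linear forms

PROOF. Induction on `E`. `E = ∅`: the constant `1`. For `insert j E` (`j ∉ E`): `coef' k = coef k * cx j 0 + coef (k-1) * cx j 1`
(coefficients of the product with `x_j.1 + x_j.2 T`; terms out of range are zero). Weights: `cx j i` has weight
`Pi.single j 1` and `HasWt.mul`, `HasWt.add`. Not all zero at `x`: if `x_j.1 ≠ 0` let `k` be minimal with `coef k x ≠ 0`,
then `coef' k x = coef k x * x_j.1 ≠ 0`; if `x_j.1 = 0` then `x_j.2 ≠ 0` (`S3.co_sq`) and for any `k` with `coef k x ≠ 0`,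
`coef' (k+1) x = coef k x * x_j.2 ≠ 0`.
(Convenient: use functions `coef : ℕ → C(X Q, ℂ)` with `coef k = 0` for `k > E.card`.)
-/

namespace Pool.Agent.Helper9.VI

open Filter Topology
open scoped ComplexOrder ENNReal NNReal ComplexConjugate

noncomputable section

theorem hasWt_cx4 {Q : Type} [Fintype Q] [DecidableEq Q] (j : Q) (i : Fin 2) :
    HasWt (Pi.single j 1) (cx j i) := by
  intro l x
  have h1 : chr l (Pi.single j 1) = (l j : ℂ) := by
    unfold chr
    rw [Finset.prod_eq_single j]
    · rw [Pi.single_eq_same, zpow_one]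
    · intro b _ hb
      rw [Pi.single_eq_of_ne hb, zpow_zero]
    · simp
  rw [h1]
  change S3.co i (S3.rot (l j) (x j)) = _ * S3.co i (x j)
  unfold S3.co S3.rot
  split_ifs <;> rfl

theorem exists_coef_aux4 {Q : Type} [Fintype Q] [DecidableEq Q] (E : Finset Q) :
    ∃ coef : ℕ → C(X Q, ℂ),
      (∀ k, HasWt (fun j => if j ∈ E then 1 else 0) (coef k)) ∧ (∀ k, E.card < k → coef k = 0) ∧
        ∀ x, ∃ k, coef k x ≠ 0 := by
  induction E using Finset.induction_on with
  | empty =>
    refine ⟨fun k => if k = 0 then 1 else 0, fun k => ?_, fun k hk => ?_, fun x => ⟨0, ?_⟩⟩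
    · have hw : (fun j : Q => if j ∈ (∅ : Finset Q) then (1 : ℤ) else 0) = 0 := by
        funext j; simp
      rw [hw]
      dsimp only
      by_cases hk : k = 0
      · rw [if_pos hk]
        exact HasWt.const 1
      · rw [if_neg hk]
        exact HasWt.zero _
    · have : k ≠ 0 := by
        rw [Finset.card_empty] at hk; omega
      dsimp only
      rw [if_neg this]
    · dsimp only
      rw [if_pos rfl]
      exact one_ne_zero
  | insert j E hj ih =>
    obtain ⟨coef, h1, h2, h3⟩ := ih
    refine ⟨fun k => coef k * cx j 0 + (if k = 0 then 0 else coef (k - 1) * cx j 1),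
      fun k => ?_, fun k hk => ?_, fun x => ?_⟩
    · have hw : (fun i : Q => if i ∈ insert j E then (1 : ℤ) else 0) =
          (fun i : Q => if i ∈ E then (1 : ℤ) else 0) + Pi.single j 1 := by
        funext i
        by_cases hi : i = j
        · subst hi
          simp [hj]
        · simp [Finset.mem_insert, hi]
      rw [hw]
      have e1 : HasWt ((fun i : Q => if i ∈ E then (1 : ℤ) else 0) + Pi.single j 1)
          (fun x => coef k x * cx j 0 x) := (h1 k).mul (hasWt_cx4 j 0)
      have e2 : HasWt ((fun i : Q => if i ∈ E then (1 : ℤ) else 0) + Pi.single j 1)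
          (fun x => (if k = 0 then 0 else coef (k - 1) * cx j 1 : C(X Q, ℂ)) x) := by
        by_cases hk : k = 0
        · simp only [if_pos hk]
          exact HasWt.zero _
        · simp only [if_neg hk]
          exact (h1 (k - 1)).mul (hasWt_cx4 j 1)
      exact e1.add e2
    · rw [Finset.card_insert_of_notMem hj] at hk
      have hk0 : k ≠ 0 := by omega
      dsimp only
      rw [if_neg hk0, h2 k (by omega), h2 (k - 1) (by omega), zero_mul, zero_mul, add_zero]
    · have hval : ∀ k, ((fun k => coef k * cx j 0 + (if k = 0 then 0 else coef (k - 1) * cx j 1)) k :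
          C(X Q, ℂ)) x = coef k x * cx j 0 x + (if k = 0 then 0 else coef (k - 1) x * cx j 1 x) := by
        intro k
        change coef k x * cx j 0 x + (if k = 0 then 0 else coef (k - 1) * cx j 1 : C(X Q, ℂ)) x = _
        by_cases hk : k = 0
        · rw [if_pos hk, if_pos hk]; rfl
        · rw [if_neg hk, if_neg hk]; rfl
      by_cases hx : cx j 0 x = 0
      · have hx1 : cx j 1 x ≠ 0 := by
          intro h
          have := S3.co_sq (x j)
          have a0 : S3.co 0 (x j) = 0 := hx
          have a1 : S3.co 1 (x j) = 0 := h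
          rw [a0, a1] at this
          norm_num at this
        obtain ⟨k, hk⟩ := h3 x
        refine ⟨k + 1, ?_⟩
        rw [hval, hx, mul_zero, zero_add, if_neg (Nat.succ_ne_zero k), Nat.add_sub_cancel]
        exact mul_ne_zero hk hx1
      · classical
        have hex := h3 x
        refine ⟨Nat.find hex, ?_⟩
        have hm := Nat.find_spec hex
        rw [hval]
        by_cases hk : Nat.find hex = 0
        · rw [if_pos hk, add_zero]
          exact mul_ne_zero hm hx
        · rw [if_neg hk]
          have : coef (Nat.find hex - 1) x = 0 := by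
            by_contra hc
            exact Nat.find_min hex (by omega) hc
          rw [this, zero_mul, add_zero]
          exact mul_ne_zero hm hx

theorem exists_coef {Q : Type} [Fintype Q] [DecidableEq Q] (E : Finset Q) :
    ∃ coef : Fin (E.card + 1) → C(X Q, ℂ),
      (∀ k, HasWt (fun j => if j ∈ E then 1 else 0) (coef k)) ∧ ∀ x, ∃ k, coef k x ≠ 0 := by
  obtain ⟨coef, h1, h2, h3⟩ := exists_coef_aux4 E
  refine ⟨fun k => coef k, fun k => h1 k, fun x => ?_⟩
  obtain ⟨k, hk⟩ := h3 x
  refine ⟨⟨k, ?_⟩, hk⟩
  by_contra hc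
  refine hk ?_
  rw [h2 k (by omega)]
  rfl

end

end Pool.Agent.Helper9.VI
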