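import Pool.Agent.Helper9.VI.Cc.Stage

/-!
# VI-C6: counting indices of weight zero

PROOF. `next`: `G' = G × Fin c ⊕ Q × Fin c` with `Q = {q = true}`; `Q' ≃ Q × Fin c ⊕ Q × Option (Fin c)`, same for
`{q = false}`. `τ' (inl (g, i)) = inl (τ g, i)`, `τ' (inr (j, t)) = inr (j, some t)`. With
`R = card {q = false}`, `U = card {q = false, w = 0}`, `Γ = card G`:
`U' = c U + R`, `Γ' = c Γ + c (2R)`, `2R' = (2c+1) 2R`, so `Δ = U + Γ - 2R` satisfies `Δ' = c Δ - R`. With `c = 7 * 3^n`
and `R ≤ 2 * 3^n * Δ`: `R' = (2c+1) R ≤ 2 * 3^(n+1) * (c Δ - R)` because `2 * 3^(n+1) * c * Δ ≥ 3 c R` and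
`3 c R - 6 * 3^n R ≥ (2c+1) R` iff `c ≥ 6 * 3^n + 1`.
(`w (inl (j,i)) = 0 ↔ w j = 0`: if `G` is empty all weights are zero, fine; `w (inr (j, none)) = 0`;
`w (inr (j, some t)) ≠ 0` only matters for the upper bound of `U'`, which is not needed: `U' ≥ c U + R` suffices.)
-/

namespace Pool.Agent.Helper9.VI

noncomputable section

namespace Stage

/-- the first stage -/
def base : Stage where
  G := Fin 2
  J := Fin 3
  w := fun j => if j = 1 then Pi.single 0 1 else if j = 2 then Pi.single 1 1 else 0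
  q := fun j => !(j == 0)

/-- indices with given type -/
abbrev T (S : Stage) (b : Bool) : Type := {j : S.J // S.q j = b}

/-- the invariant of the counting argument -/
structure Good (n : ℕ) (S : Stage) : Prop where
  nonneg : ∀ j g, 0 ≤ S.w j g
  match_ : ∃ τ : S.G → S.T true, Function.Injective τ ∧ (∀ g, 1 ≤ S.w (τ g).1 g) ∧
    ∀ j : S.T true, (∀ g, τ g ≠ j) → S.w j.1 = 0
  two : Fintype.card (S.T true) = 2 * Fintype.card (S.T false)
  pos : 0 < Fintype.card (S.T false)
  ineq : (Fintype.card (S.T false) : ℤ) ≤ 2 * 3 ^ n *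
    ((Fintype.card {j : S.J // S.q j = false ∧ S.w j = 0} : ℤ) + Fintype.card S.G -
      Fintype.card (S.T true))

theorem good_base : Good 0 base where
  nonneg := by
    intro j g
    have h : ∀ (j : Fin 3) (g : Fin 2), (0 : ℤ) ≤ (if j = 1 then Pi.single 0 1 else
      if j = 2 then Pi.single 1 1 else 0 : Fin 2 → ℤ) g := by decide
    exact h j g
  match_ := by
    refine ⟨fun g : Fin 2 => ⟨(g.succ : Fin 3), ?_⟩, ?_, ?_, ?_⟩
    · change (!((g.succ : Fin 3) == 0)) = true
      revert g
      decide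
    · intro g h hgh
      exact Fin.succ_injective _ (congrArg Subtype.val hgh)
    · have h : ∀ g : Fin 2, (1 : ℤ) ≤ (if (g.succ : Fin 3) = 1 then Pi.single 0 1 else
        if (g.succ : Fin 3) = 2 then Pi.single 1 1 else 0 : Fin 2 → ℤ) g := by decide
      exact h
    · rintro ⟨j, hj⟩ h
      exfalso
      have key : ∀ j : Fin 3, (!(j == 0)) = true → ∃ g : Fin 2, g.succ = j := by decide
      obtain ⟨g, hg⟩ := key j hj
      exact h g (Subtype.ext hg)
  two := by
    change Fintype.card {j : Fin 3 // (!(j == 0)) = true} =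
      2 * Fintype.card {j : Fin 3 // (!(j == 0)) = false}
    decide
  pos := by
    change 0 < Fintype.card {j : Fin 3 // (!(j == 0)) = false}
    decide
  ineq := by
    have h1 : Fintype.card (base.T false) = 1 := by
      change Fintype.card {j : Fin 3 // (!(j == 0)) = false} = 1
      decide
    have h2 : Fintype.card (base.T true) = 2 := by
      change Fintype.card {j : Fin 3 // (!(j == 0)) = true} = 2
      decide
    have h3 : Fintype.card base.G = 2 := by
      change Fintype.card (Fin 2) = 2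
      decide
    have h4 : 1 ≤ Fintype.card {j : base.J // base.q j = false ∧ base.w j = 0} := by
      refine Fintype.card_pos_iff.2 ⟨⟨(0 : Fin 3), rfl, ?_⟩⟩
      rfl
    rw [h1, h2, h3]
    have h4' : (1 : ℤ) ≤ (Fintype.card {j : base.J // base.q j = false ∧ base.w j = 0} : ℤ) := by
      exact_mod_cast h4
    push_cast
    linarith

/-- the indices of the next stage of a given type -/
def equivT (S : Stage) (c : ℕ) (b : Bool) :
    (S.next c).T b ≃ (S.T b × Fin c) ⊕ (S.T b × Option (Fin c)) where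
  toFun j := match j with
    | ⟨Sum.inl (j, i), h⟩ => Sum.inl (⟨j, h⟩, i)
    | ⟨Sum.inr (j, t), h⟩ => Sum.inr (⟨j, h⟩, t)
  invFun j := match j with
    | Sum.inl (⟨j, h⟩, i) => ⟨Sum.inl (j, i), h⟩
    | Sum.inr (⟨j, h⟩, t) => ⟨Sum.inr (j, t), h⟩
  left_inv := by rintro ⟨(⟨j, i⟩ | ⟨j, t⟩), h⟩ <;> rfl
  right_inv := by rintro (⟨⟨j, h⟩, i⟩ | ⟨⟨j, h⟩, t⟩) <;> rfl

theorem card_T_next (S : Stage) (c : ℕ) (b : Bool) :
    Fintype.card ((S.next c).T b) = (2 * c + 1) * Fintype.card (S.T b) := by
  rw [Fintype.card_congr (S.equivT c b)]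
  simp only [Fintype.card_sum, Fintype.card_prod, Fintype.card_fin, Fintype.card_option]
  ring

theorem card_G_next (S : Stage) (c : ℕ) :
    Fintype.card (S.next c).G = c * Fintype.card S.G + c * Fintype.card (S.T true) := by
  have : Fintype.card (S.next c).G =
      Fintype.card ((S.G × Fin c) ⊕ ({j : S.J // S.q j = true} × Fin c)) := rfl
  rw [this]
  simp only [Fintype.card_sum, Fintype.card_prod, Fintype.card_fin]
  ring

theorem w_next_inl (S : Stage) (c : ℕ) (j : S.J) (i : Fin c) (h : S.w j = 0) :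
    (S.next c).w (Sum.inl (j, i)) = 0 := by
  funext g
  rcases g with ⟨g, i'⟩ | g
  · change (if i' = i then S.w j g else 0) = 0
    rw [h]
    simp
  · rfl

theorem w_next_none (S : Stage) (c : ℕ) (j : S.J) :
    (S.next c).w (Sum.inr (j, none)) = 0 := rfl

theorem card_U_next (S : Stage) (c : ℕ) :
    c * Fintype.card {j : S.J // S.q j = false ∧ S.w j = 0} + Fintype.card (S.T false) ≤
      Fintype.card {j : (S.next c).J // (S.next c).q j = false ∧ (S.next c).w j = 0} := by
  let f : ({j : S.J // S.q j = false ∧ S.w j = 0} × Fin c) ⊕ S.T false →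
      {j : (S.next c).J // (S.next c).q j = false ∧ (S.next c).w j = 0} := fun p => match p with
    | Sum.inl (⟨j, h⟩, i) => ⟨Sum.inl (j, i), h.1, S.w_next_inl c j i h.2⟩
    | Sum.inr ⟨j, h⟩ => ⟨Sum.inr (j, none), h, S.w_next_none c j⟩
  have hf : Function.Injective f := by
    rintro (⟨⟨j, h⟩, i⟩ | ⟨j, h⟩) (⟨⟨j', h'⟩, i'⟩ | ⟨j', h'⟩) hh
    · have h1 := congrArg Subtype.val hh
      have h2 := Sum.inl.inj h1
      have h3 := congrArg Prod.fst h2
      have h4 := congrArg Prod.snd h2
      have h3' : j = j' := h3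
      have h4' : i = i' := h4
      subst h3' h4'
      rfl
    · exact absurd (congrArg Subtype.val hh) Sum.inl_ne_inr
    · exact absurd (congrArg Subtype.val hh) Sum.inr_ne_inl
    · have h1 := congrArg Subtype.val hh
      have h2 := Sum.inr.inj h1
      have h3 : j = j' := congrArg Prod.fst h2
      subst h3
      rfl
  have := Fintype.card_le_of_injective f hf
  simp only [Fintype.card_sum, Fintype.card_prod, Fintype.card_fin] at this
  calc _ = Fintype.card {j : S.J // S.q j = false ∧ S.w j = 0} * c + Fintype.card (S.T false) := by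
        ring
    _ ≤ _ := this

theorem good_next (n : ℕ) (S : Stage) (hS : Good n S) : Good (n + 1) (S.next (7 * 3 ^ n)) where
  nonneg := by
    rintro (⟨j, i⟩ | ⟨j, t⟩) (⟨g, i'⟩ | ⟨g, i'⟩)
    · change 0 ≤ (if i' = i then S.w j g else 0)
      split_ifs
      · exact hS.nonneg j g
      · exact le_refl _
    · exact le_refl _
    · rcases t with _ | t
      · exact le_refl _
      · exact le_refl _
    · rcases t with _ | t
      · exact le_refl _
      · exact zero_le_one
  match_ := by
    obtain ⟨τ, hτ, h1, h2⟩ := hS.match_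
    refine ⟨fun g => match g with
      | Sum.inl (g, i) => ⟨Sum.inl ((τ g).1, i), (τ g).2⟩
      | Sum.inr (j, t) => ⟨Sum.inr (j.1, some t), j.2⟩, ?_, ?_, ?_⟩
    · rintro (⟨g, i⟩ | ⟨⟨j, hj⟩, t⟩) (⟨g', i'⟩ | ⟨⟨j', hj'⟩, t'⟩) hh
      · have h2 := Sum.inl.inj (congrArg Subtype.val hh)
        have h3 : (τ g).1 = (τ g').1 := congrArg Prod.fst h2
        have h4 : i = i' := congrArg Prod.snd h2
        have h5 : g = g' := hτ (Subtype.ext h3)
        subst h4 h5
        rfl
      · exact absurd (congrArg Subtype.val hh) Sum.inl_ne_inr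
      · exact absurd (congrArg Subtype.val hh) Sum.inr_ne_inl
      · have h2 := Sum.inr.inj (congrArg Subtype.val hh)
        have h3 : j = j' := congrArg Prod.fst h2
        have h4 : some t = some t' := congrArg Prod.snd h2
        have h5 : t = t' := Option.some.inj h4
        subst h3 h5
        rfl
    · rintro (⟨g, i⟩ | ⟨⟨j, hj⟩, t⟩)
      · change 1 ≤ (if i = i then S.w (τ g).1 g else 0)
        rw [if_pos rfl]
        exact h1 g
      · exact le_refl _
    · rintro ⟨(⟨j, i⟩ | ⟨j, t⟩), hj⟩ hh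
      · refine S.w_next_inl _ j i (h2 ⟨j, hj⟩ fun g hg => hh (Sum.inl (g, i)) ?_)
        refine Subtype.ext ?_
        change Sum.inl ((τ g).1, i) = Sum.inl (j, i)
        rw [hg]
      · rcases t with _ | t
        · rfl
        · exact absurd rfl (hh (Sum.inr (⟨j, hj⟩, t)))
  two := by
    rw [card_T_next, card_T_next, hS.two]
    ring
  pos := by
    rw [card_T_next]
    exact Nat.mul_pos (Nat.succ_pos _) hS.pos
  ineq := by
    have hU := S.card_U_next (7 * 3 ^ n)
    have hI := hS.ineq
    have hT := hS.two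
    rw [card_T_next, card_T_next, card_G_next]
    generalize Fintype.card {j : (S.next (7 * 3 ^ n)).J // (S.next (7 * 3 ^ n)).q j = false ∧
      (S.next (7 * 3 ^ n)).w j = 0} = U' at hU ⊢
    generalize Fintype.card {j : S.J // S.q j = false ∧ S.w j = 0} = U at hU hI
    generalize Fintype.card (S.T true) = Q at hI hT ⊢
    generalize Fintype.card (S.T false) = R at hU hI hT ⊢
    generalize Fintype.card S.G = Γ at hI ⊢
    have h3 : (1 : ℤ) ≤ 3 ^ n := one_le_pow₀ (by norm_num)
    have hU' : (7 * 3 ^ n * U + R : ℤ) ≤ U' := by exact_mod_cast hU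
    have hT' : (Q : ℤ) = 2 * R := by exact_mod_cast hT
    have hR : (0 : ℤ) ≤ R := Int.natCast_nonneg R
    push_cast
    rw [pow_succ]
    generalize (3 : ℤ) ^ n = m at *
    generalize (U : ℤ) = u at *
    generalize (U' : ℤ) = u' at *
    generalize (R : ℤ) = r at *
    generalize (Γ : ℤ) = g at *
    rw [hT'] at hI ⊢
    have h1 : m * 3 ≥ 0 := by linarith
    have h2 : 6 * m * (7 * m * (u + g - 2 * r) - r) ≤
        2 * (m * 3) * (u' + (7 * m * g + 7 * m * (2 * r)) - (2 * (7 * m) + 1) * (2 * r)) := by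
      have : 7 * m * (u + g - 2 * r) - r ≤
        u' + (7 * m * g + 7 * m * (2 * r)) - (2 * (7 * m) + 1) * (2 * r) := by nlinarith
      nlinarith
    have h3' : 21 * m * r ≤ 21 * m * (2 * m * (u + g - 2 * r)) :=
      mul_le_mul_of_nonneg_left hI (by linarith)
    have h5 : 0 ≤ (m - 1) * r := mul_nonneg (by linarith) hR
    nlinarith

end Stage

end

end Pool.Agent.Helper9.VI
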