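import Pool.Agent.Helper9.VI.Cc.Trace

/-!
# VI-C10: constant diagonal matrices

PROOF. Entries: `unit_apply`. `dg_next`: at `x`, entry `(j', k')`: every `j' : (S.next c).J` is `eL i j` or `eR t j` for exactly
one pair, `S.q j = (S.next c).q j'` (`rfl`), `blk_emb`, `blk_eq_zero`.
-/

namespace Pool.Agent.Helper9.VI

open Filter Topology
open scoped ComplexOrder ENNReal NNReal ComplexConjugate

noncomputable section

namespace Stage

/-- an entry at a point, as an additive map -/
def ent (S : Stage) (x : X S.G) (j k : S.J) : S.A →ₗ[ℂ] ℂ where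
  toFun a := a.1 x j k
  map_add' _ _ := rfl
  map_smul' _ _ := rfl

theorem ent_apply (S : Stage) (x : X S.G) (j k : S.J) (a : S.A) : S.ent x j k a = a.1 x j k := rfl

/-- the constant diagonal matrix with entries depending only on the type of the index -/
def dg (S : Stage) (f : Bool → ℂ) : S.A := ∑ j, f (S.q j) • S.unit j

theorem dg_apply (S : Stage) (f : Bool → ℂ) (x : X S.G) (j k : S.J) :
    (S.dg f).1 x j k = if j = k then f (S.q j) else 0 := by
  rw [← ent_apply, dg, map_sum]
  have h : ∀ i, S.ent x j k (f (S.q i) • S.unit i) = if j = i ∧ k = i then f (S.q i) else 0 := by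
    intro i
    rw [map_smul, ent_apply, unit_apply, smul_eq_mul]
    split_ifs <;> simp
  simp only [h]
  by_cases hjk : j = k
  · subst hjk
    simp
  · rw [if_neg hjk]
    refine Finset.sum_eq_zero fun i _ => ?_
    rw [if_neg]
    rintro ⟨h1, h2⟩
    exact hjk (h1.trans h2.symm)

theorem dg_next (S : Stage) (c : ℕ) (f : Bool → ℂ) (x : X S.G) :
    ∑ i, S.alpha c i (S.dg f) + ∑ t, S.beta c t (S.ev x (S.dg f)) = (S.next c).dg f := by
  apply Subtype.ext
  apply FA.ext
  intro y
  ext j' k'
  rw [dg_apply, ← ent_apply, map_add, map_sum, map_sum]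
  simp only [ent_apply, alpha_apply, beta_apply]
  have key : ∀ (e : S.J ↪ (S.next c).J) (z : X S.G), (∀ j, (S.next c).q (e j) = S.q j) →
      blk e ((S.dg f).1 z) j' k' = if j' = k' ∧ (∃ j, j' = e j) then f ((S.next c).q j') else 0 := by
    intro e z hq
    by_cases hj : ∃ j, j' = e j
    · by_cases hk : ∃ k, k' = e k
      · obtain ⟨j, rfl⟩ := hj
        obtain ⟨k, rfl⟩ := hk
        rw [blk_emb, dg_apply, hq]
        simp
      · rw [blk_eq_zero _ _ _ _ (Or.inr (by simpa using hk)), if_neg]
        rintro ⟨rfl, h⟩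
        exact hk h
    · rw [blk_eq_zero _ _ _ _ (Or.inl (by simpa using hj)), if_neg]
      rintro ⟨_, h⟩
      exact hj h
  have hL : ∀ i, blk (S.eL c i) ((S.dg f).1 (S.res c i y)) j' k' =
      if j' = k' ∧ (∃ j, j' = S.eL c i j) then f ((S.next c).q j') else 0 :=
    fun i => key (S.eL c i) _ (fun _ => rfl)
  have hR : ∀ t, blk (S.eR c t) (S.ev x (S.dg f)) j' k' =
      if j' = k' ∧ (∃ j, j' = S.eR c t j) then f ((S.next c).q j') else 0 :=
    fun t => key (S.eR c t) x (fun _ => rfl)
  simp only [hL, hR]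
  by_cases hjk : j' = k'
  · subst hjk
    simp only [true_and]
    rcases j' with ⟨j, i⟩ | ⟨j, t⟩
    · rw [Finset.sum_eq_single i, Finset.sum_eq_zero]
      · rw [if_pos ⟨j, rfl⟩]
        simp
      · intro t _
        rw [if_neg]
        rintro ⟨k, hk⟩
        exact absurd hk (by intro h; cases h)
      · intro i' _ hi'
        rw [if_neg]
        rintro ⟨k, hk⟩
        apply hi'
        have := congrArg Prod.snd (Sum.inl.inj hk)
        exact this.symm
      · simp
    · rw [Finset.sum_eq_zero, Finset.sum_eq_single t]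
      · rw [if_pos ⟨j, rfl⟩]
        simp
      · intro t' _ ht'
        rw [if_neg]
        rintro ⟨k, hk⟩
        apply ht'
        have := congrArg Prod.snd (Sum.inr.inj hk)
        exact this.symm
      · simp
      · intro i _
        rw [if_neg]
        rintro ⟨k, hk⟩
        exact absurd hk (by intro h; cases h)
  · simp [hjk]

theorem mul_ent (S : Stage) (a b : S.A) (x : X S.G) (j k : S.J) :
    (a * b).1 x j k = ∑ i, a.1 x j i * b.1 x i k := rfl

theorem diag_mul_ent (S : Stage) (a b : S.A) (x : X S.G) (j k : S.J)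
    (ha : ∀ x j k, j ≠ k → a.1 x j k = 0) :
    (a * b).1 x j k = a.1 x j j * b.1 x j k := by
  rw [mul_ent, Finset.sum_eq_single j]
  · intro i _ hi
    rw [ha x j i hi.symm, zero_mul]
  · simp

/-- the diagonal elements -/
def diag (S : Stage) : StarSubalgebra ℂ S.A where
  carrier := {a | ∀ x j k, j ≠ k → a.1 x j k = 0}
  mul_mem' {a b} ha hb := by
    intro x j k hjk
    rw [diag_mul_ent S a b x j k ha, hb x j k hjk, mul_zero]
  add_mem' {a b} ha hb := by
    intro x j k hjk
    change a.1 x j k + b.1 x j k = 0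
    rw [ha x j k hjk, hb x j k hjk, add_zero]
  algebraMap_mem' r := by
    intro x j k hjk
    change (if j = k then r else 0) = (0 : ℂ)
    rw [if_neg hjk]
  star_mem' {a} ha := by
    intro x j k hjk
    change conj (a.1 x k j) = 0
    rw [ha x k j hjk.symm, map_zero]

theorem mem_diag (S : Stage) (a : S.A) : a ∈ S.diag ↔ ∀ x j k, j ≠ k → a.1 x j k = 0 := Iff.rfl

theorem diag_comm (S : Stage) (a : S.A) (ha : a ∈ S.diag) (b : S.A) (hb : b ∈ S.diag) :
    a * b = b * a := by
  apply Subtype.ext
  apply FA.ext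
  intro y
  ext j k
  have h1 := diag_mul_ent S a b y j k ha
  have h2 := diag_mul_ent S b a y j k hb
  rw [h1, h2]
  by_cases hjk : j = k
  · subst hjk
    rw [mul_comm]
  · rw [ha y j k hjk, hb y j k hjk, mul_zero, mul_zero]

end Stage

end

end Pool.Agent.Helper9.VI
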