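import Pool.Agent.Helper9.VI.Cc.Coef
import Pool.Agent.Helper9.VI.Top.Main

/-!
# VI-C8: a matrix of functions with given weights is not injective at some point

PROOF. Use `multi_borsuk_ulam` for the index set `Q` itself: the factor `g : G` is the factor `τ g : Q`, the other
factors are the set `E = {j | ∀ g, τ g ≠ j}`, `E.card + card G = card Q`. Since `card Q < card G + card {k | wP k = 0}` there
is an injection `u : Fin (E.card + 1) → P` with `wP (u i) = 0`. With `coef` from `exists_coef E` put
`s j x = ∑ i, coef i x * ψ j (u i) (fun g => x (τ g))`, weight: `wQ j g` at the factor `τ g`, and `1` at the factors in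
`E`; that is `e j j' = (wQ j g).toNat` if `j' = τ g`, `1` if `j' ∈ E`; `e j j ≥ 1` by `hτ1`.
`multi_borsuk_ulam` gives `x` with all `s j x = 0`; take `fun g => x (τ g)` and `z = ∑ i, coef i x • Pi.single (u i) 1`.
-/

namespace Pool.Agent.Helper9.VI

open Filter Topology
open scoped ComplexOrder ENNReal NNReal ComplexConjugate

noncomputable section

/-- pull back of a function of weight `w` along an injection of the index sets -/
theorem hasWt_pull {G Q : Type} [Fintype G] [Fintype Q] [DecidableEq Q]
    (τ : G → Q) (hτ : Function.Injective τ) {w : G → ℤ} {f : X G → ℂ} (hf : HasWt w f) :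
    HasWt (Function.extend τ w 0) (fun x : X Q => f (fun g => x (τ g))) := by
  intro l x
  have h1 : f (fun g => (act l x) (τ g)) = chr (fun g => l (τ g)) w * f (fun g => x (τ g)) :=
    hf (fun g => l (τ g)) (fun g => x (τ g))
  have h2 : chr l (Function.extend τ w 0) = chr (fun g => l (τ g)) w := by
    unfold chr
    symm
    refine Finset.prod_of_injOn τ hτ.injOn (fun _ _ => Finset.mem_coe.2 (Finset.mem_univ _)) ?_ ?_
    · intro j _ hj
      have hj' : ¬ ∃ g, τ g = j := by
        rintro ⟨g, rfl⟩
        exact hj ⟨g, Finset.mem_coe.2 (Finset.mem_univ _), rfl⟩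
      rw [Function.extend_apply' _ _ _ hj']
      simp
    · intro g _
      rw [hτ.extend_apply]
  rw [h2]
  exact h1

theorem common_kernel {G P Q : Type} [Fintype G] [DecidableEq G] [Fintype P] [DecidableEq P]
    [Fintype Q] [DecidableEq Q] (wP : P → G → ℤ) (wQ : Q → G → ℤ) (hnn : ∀ j g, 0 ≤ wQ j g)
    (τ : G → Q) (hτ : Function.Injective τ) (hτ1 : ∀ g, 1 ≤ wQ (τ g) g)
    (hcard : Fintype.card Q < Fintype.card G + Fintype.card {k : P // wP k = 0})
    (ψ : Q → P → C(X G, ℂ)) (hψ : ∀ j k, HasWt (wQ j - wP k) (ψ j k)) :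
    ∃ (x : X G) (z : P → ℂ), z ≠ 0 ∧ ∀ j, ∑ k, ψ j k x * z k = 0 := by
  classical
  set E : Finset Q := Finset.univ.filter (fun j => ∀ g, τ g ≠ j) with hE
  have hEcard : E.card + Fintype.card G = Fintype.card Q := by
    have h1 : E = (Finset.univ.image τ)ᶜ := by
      ext j
      simp [hE]
    rw [h1, Finset.card_compl, Finset.card_image_of_injective _ hτ, Finset.card_univ]
    have := Fintype.card_le_of_injective τ hτ
    omega
  have hlt : Fintype.card (Fin (E.card + 1)) ≤ Fintype.card {k : P // wP k = 0} := by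
    rw [Fintype.card_fin]
    omega
  obtain ⟨u⟩ := Function.Embedding.nonempty_of_card_le hlt
  obtain ⟨coef, hcoef, hcoef0⟩ := exists_coef E
  let π : C(X Q, X G) := ⟨fun x g => x (τ g), continuous_pi fun g => continuous_apply (τ g)⟩
  let s : Q → C(X Q, ℂ) := fun j => ∑ i, coef i * (ψ j (u i).1).comp π
  have hs_apply : ∀ j x, s j x = ∑ i, coef i x * ψ j (u i).1 (fun g => x (τ g)) := by
    intro j x
    simp only [s, ContinuousMap.coe_sum, Finset.sum_apply, ContinuousMap.mul_apply]
    rfl
  let e : Q → Q → ℕ := fun j j' => if j' ∈ E then 1 else (Function.extend τ (wQ j) 0 j').toNat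
  have hmemE : ∀ j, j ∈ E ↔ ¬ ∃ g, τ g = j := by
    intro j
    simp [hE]
  have he_eq : ∀ j, (fun i => (e j i : ℤ)) =
      (fun i => if i ∈ E then (1 : ℤ) else 0) + Function.extend τ (wQ j) 0 := by
    intro j
    funext i
    simp only [e, Pi.add_apply]
    by_cases hi : i ∈ E
    · rw [if_pos hi, if_pos hi, Function.extend_apply' _ _ _ ((hmemE i).1 hi)]
      simp
    · rw [if_neg hi, if_neg hi]
      have : ∃ g, τ g = i := by
        by_contra h
        exact hi ((hmemE i).2 h)
      obtain ⟨g, rfl⟩ := this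
      rw [hτ.extend_apply, Int.toNat_of_nonneg (hnn j g)]
      simp
  have he1 : ∀ j, 1 ≤ e j j := by
    intro j
    simp only [e]
    by_cases hj : j ∈ E
    · rw [if_pos hj]
    · rw [if_neg hj]
      have : ∃ g, τ g = j := by
        by_contra h
        exact hj ((hmemE j).2 h)
      obtain ⟨g, rfl⟩ := this
      rw [hτ.extend_apply]
      have := hτ1 g
      omega
  have hs : ∀ j, HasWt (fun i => (e j i : ℤ)) (s j) := by
    intro j
    rw [he_eq j]
    have h1 : (⇑(s j) : X Q → ℂ) =
        fun x => ∑ i, coef i x * ψ j (u i).1 (fun g => x (τ g)) := funext (hs_apply j)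
    rw [h1]
    refine HasWt.sum _ fun i _ => ?_
    refine (hcoef i).mul ?_
    have h2 := hψ j (u i).1
    rw [(u i).2, sub_zero] at h2
    exact hasWt_pull τ hτ h2
  obtain ⟨x, hx⟩ := multi_borsuk_ulam e he1 s hs
  refine ⟨fun g => x (τ g), fun k => ∑ i, if (u i).1 = k then coef i x else 0, ?_, ?_⟩
  · obtain ⟨i, hi⟩ := hcoef0 x
    intro h
    apply hi
    have h3 := congrFun h (u i).1
    simp only [Pi.zero_apply] at h3
    rw [Finset.sum_eq_single i] at h3
    · simpa using h3
    · intro i' _ hi'
      rw [if_neg]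
      intro h4
      exact hi' (u.injective (Subtype.ext h4))
    · intro h5
      exact absurd (Finset.mem_univ i) h5
  · intro j
    have h6 := hx j
    rw [hs_apply] at h6
    refine Eq.trans ?_ h6
    simp only [Finset.mul_sum]
    rw [Finset.sum_comm]
    refine Finset.sum_congr rfl fun i _ => ?_
    rw [Finset.sum_eq_single (u i).1]
    · rw [if_pos rfl, mul_comm]
    · intro k _ hk
      rw [if_neg (Ne.symm hk), mul_zero]
    · intro h7
      exact absurd (Finset.mem_univ _) h7

end

end Pool.Agent.Helper9.VI
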