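import Pool.Agent.Helper9.VI.Cc.Stage

/-!
# VI-C2: relations between the maps `alpha` and `beta`

PROOF. `blk e B * blk e' C = 0` if the ranges of `e`, `e'` are disjoint (entries, `blk_eq_zero`). Pointwise on
`X (S.next c).G`. `sum_one`: entries of `∑ i, blk (eL i) 1 + ∑ t, blk (eR t) 1` (`blk_emb`, `blk_eq_zero`).
`norm_alpha`: `‖blk (a (res x))‖ = ‖a (res x)‖` (`norm_blk`) and `res` is surjective; norm of a continuous
function is the supremum (`ContinuousMap.norm_eq_iSup_norm`, or both inequalities with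
`ContinuousMap.norm_le`).
-/

namespace Pool.Agent.Helper9.VI

open Filter Topology
open scoped ComplexOrder ENNReal NNReal ComplexConjugate

noncomputable section

theorem Mx_mul_apply8 {J : Type} [Fintype J] [DecidableEq J] (B C : Mx J) (a b : J) :
    (B * C) a b = ∑ c, B a c * C c b := rfl

theorem Mx_sum_apply8 {ι J : Type} [Fintype J] [DecidableEq J] (T : Finset ι) (f : ι → Mx J)
    (a b : J) : (∑ i ∈ T, f i) a b = ∑ i ∈ T, f i a b := by
  classical
  induction T using Finset.induction_on with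
  | empty => rfl
  | insert i T hi ih =>
    rw [Finset.sum_insert hi, Finset.sum_insert hi, ← ih]
    rfl

theorem Mx_one_apply8 {J : Type} [Fintype J] [DecidableEq J] (a b : J) :
    (1 : Mx J) a b = if a = b then 1 else 0 := rfl

theorem blk_mul_blk_disj8 {J J' : Type} [Fintype J] [DecidableEq J] [Fintype J'] [DecidableEq J']
    (e e' : J ↪ J') (h : ∀ j k, e j ≠ e' k) (B C : Mx J) : blk e B * blk e' C = 0 := by
  ext a b
  rw [Mx_mul_apply8]
  change _ = (0 : ℂ)
  refine Finset.sum_eq_zero fun c _ => ?_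
  by_cases hc : ∀ j, c ≠ e j
  · rw [blk_eq_zero e B a c (Or.inr hc), zero_mul]
  · push Not at hc
    obtain ⟨j, rfl⟩ := hc
    rw [blk_eq_zero e' C (e j) b (Or.inl fun k => h j k), mul_zero]

theorem blk_one_apply8 {J J' : Type} [Fintype J] [DecidableEq J] [Fintype J'] [DecidableEq J']
    (e : J ↪ J') (a b : J') [Decidable (∃ j, a = e j)] :
    blk e (1 : Mx J) a b = if a = b then (if ∃ j, a = e j then 1 else 0) else 0 := by
  by_cases ha : ∃ j, a = e j
  · rw [if_pos ha]
    obtain ⟨j, rfl⟩ := ha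
    by_cases hb : ∃ k, b = e k
    · obtain ⟨k, rfl⟩ := hb
      rw [blk_emb, Mx_one_apply8]
      simp only [EmbeddingLike.apply_eq_iff_eq]
    · rw [blk_eq_zero e _ _ _ (Or.inr (by simpa using hb))]
      rw [if_neg]
      rintro rfl
      exact hb ⟨j, rfl⟩
  · rw [if_neg ha, blk_eq_zero e _ _ _ (Or.inl (by simpa using ha))]
    simp

namespace Stage

theorem eL_ne_eL8 (S : Stage) (c : ℕ) {i j : Fin c} (h : i ≠ j) (k l : S.J) :
    S.eL c i k ≠ S.eL c j l := by
  intro h'
  exact h (congrArg Prod.snd (Sum.inl.inj h'))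

theorem eR_ne_eR8 (S : Stage) (c : ℕ) {i j : Option (Fin c)} (h : i ≠ j) (k l : S.J) :
    S.eR c i k ≠ S.eR c j l := by
  intro h'
  exact h (congrArg Prod.snd (Sum.inr.inj h'))

theorem eL_ne_eR8 (S : Stage) (c : ℕ) (i : Fin c) (t : Option (Fin c)) (k l : S.J) :
    S.eL c i k ≠ S.eR c t l := fun h => Sum.inl_ne_inr h

theorem alpha_mul_alpha (S : Stage) (c : ℕ) (i j : Fin c) (h : i ≠ j) (a b : S.A) :
    S.alpha c i a * S.alpha c j b = 0 := by
  apply Subtype.ext
  ext1 x
  exact blk_mul_blk_disj8 _ _ (S.eL_ne_eL8 c h) _ _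

theorem alpha_mul_beta (S : Stage) (c : ℕ) (i : Fin c) (t : Option (Fin c)) (a : S.A)
    (B : Mx S.J) : S.alpha c i a * S.beta c t B = 0 := by
  apply Subtype.ext
  ext1 x
  exact blk_mul_blk_disj8 _ _ (S.eL_ne_eR8 c i t) _ _

theorem beta_mul_alpha (S : Stage) (c : ℕ) (i : Fin c) (t : Option (Fin c)) (a : S.A)
    (B : Mx S.J) : S.beta c t B * S.alpha c i a = 0 := by
  apply Subtype.ext
  ext1 x
  exact blk_mul_blk_disj8 _ _ (fun k l => (S.eL_ne_eR8 c i t l k).symm) _ _

theorem beta_mul_beta (S : Stage) (c : ℕ) (t s : Option (Fin c)) (h : t ≠ s) (B C : Mx S.J) :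
    S.beta c t B * S.beta c s C = 0 := by
  apply Subtype.ext
  ext1 x
  exact blk_mul_blk_disj8 _ _ (S.eR_ne_eR8 c h) _ _

theorem cases8 (S : Stage) (c : ℕ) (a : (S.next c).J) :
    (∃ i j, a = S.eL c i j) ∨ (∃ t j, a = S.eR c t j) := by
  rcases a with ⟨j, i⟩ | ⟨j, t⟩
  · exact Or.inl ⟨i, j, rfl⟩
  · exact Or.inr ⟨t, j, rfl⟩

theorem coe_sum8 (S : Stage) {ι : Type} (T : Finset ι) (f : ι → S.A) :
    ((∑ i ∈ T, f i : S.A) : FA S.G S.J) = ∑ i ∈ T, (f i : FA S.G S.J) := by
  classical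
  induction T using Finset.induction_on with
  | empty => rfl
  | insert i T hi ih =>
    rw [Finset.sum_insert hi, Finset.sum_insert hi, ← ih]
    rfl

theorem sum_one (S : Stage) (c : ℕ) :
    ∑ i, S.alpha c i 1 + ∑ t, S.beta c t 1 = (1 : (S.next c).A) := by
  classical
  apply Subtype.ext
  ext1 x
  have e1 : ((∑ i, S.alpha c i 1 + ∑ t, S.beta c t 1 : (S.next c).A) : FA _ _) x =
      ∑ i, blk (S.eL c i) (1 : Mx S.J) + ∑ t, blk (S.eR c t) (1 : Mx S.J) := by
    have : ((∑ i, S.alpha c i 1 + ∑ t, S.beta c t 1 : (S.next c).A) : FA _ _) =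
      ∑ i, (S.alpha c i 1 : (S.next c).A).1 + ∑ t, (S.beta c t 1 : (S.next c).A).1 := by
      rw [← coe_sum8, ← coe_sum8]
      rfl
    rw [this, FA.add_apply, FA.sum_apply, FA.sum_apply]
    rfl
  rw [e1]
  change _ = (1 : Mx (S.next c).J)
  ext a b
  change (∑ i, blk (S.eL c i) (1 : Mx S.J)) a b + (∑ t, blk (S.eR c t) (1 : Mx S.J)) a b = _
  rw [Mx_sum_apply8, Mx_sum_apply8, Mx_one_apply8]
  simp only [blk_one_apply8]
  by_cases hab : a = b
  · simp only [if_pos hab]
    rcases S.cases8 c a with ⟨i0, j, rfl⟩ | ⟨t0, j, rfl⟩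
    · have h1 : ∀ i, (∃ k, S.eL c i0 j = S.eL c i k) ↔ i0 = i := by
        intro i
        constructor
        · rintro ⟨k, hk⟩
          by_contra hne
          exact S.eL_ne_eL8 c hne _ _ hk
        · rintro rfl
          exact ⟨j, rfl⟩
      have h2 : ∀ t, ¬ (∃ k, S.eL c i0 j = S.eR c t k) := by
        rintro t ⟨k, hk⟩
        exact S.eL_ne_eR8 c _ _ _ _ hk
      simp only [h1, h2, if_false, Finset.sum_const_zero, add_zero]
      simp
    · have h1 : ∀ t, (∃ k, S.eR c t0 j = S.eR c t k) ↔ t0 = t := by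
        intro i
        constructor
        · rintro ⟨k, hk⟩
          by_contra hne
          exact S.eR_ne_eR8 c hne _ _ hk
        · rintro rfl
          exact ⟨j, rfl⟩
      have h2 : ∀ t, ¬ (∃ k, S.eR c t0 j = S.eL c t k) := by
        rintro t ⟨k, hk⟩
        exact S.eL_ne_eR8 c _ _ _ _ hk.symm
      simp only [h1, h2, if_false, Finset.sum_const_zero, zero_add]
      simp
  · simp only [if_neg hab, Finset.sum_const_zero, add_zero]

theorem norm_alpha (S : Stage) (c : ℕ) (i : Fin c) (a : S.A) : ‖S.alpha c i a‖ = ‖a‖ := by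
  have ha : ‖a‖ = ‖(a.1 : FA S.G S.J)‖ := rfl
  have hb : ‖S.alpha c i a‖ = ‖((S.alpha c i a).1 : FA (S.next c).G (S.next c).J)‖ := rfl
  rw [ha, hb]
  apply le_antisymm
  · refine FA.norm_le _ (norm_nonneg _) fun x => ?_
    rw [alpha_apply, norm_blk]
    exact FA.norm_apply_le _ _
  · refine FA.norm_le _ (norm_nonneg _) fun y => ?_
    let x : X (S.next c).G := Sum.elim (fun p => y p.1) (fun _ => Classical.arbitrary S3)
    have hx : S.res c i x = y := rfl
    have h1 := FA.norm_apply_le ((S.alpha c i a).1 : FA (S.next c).G (S.next c).J) x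
    rw [alpha_apply, norm_blk, hx] at h1
    exact h1

end Stage

end

end Pool.Agent.Helper9.VI
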