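import Pool.Agent.Helper9.VI.Cc.Kernel
import Pool.Agent.Helper9.VI.Cc.Diag
import Pool.Agent.Helper9.VI.Cc.Count

/-!
# VI-C9: no comparison at a good stage

PROOF. Let `p = dg (false ↦ 1, true ↦ 0)`, `q = dg (false ↦ 0, true ↦ 1)`. Suppose `‖v * q * star v - p‖ < 1`.
`common_kernel` with `P = S.T false`, `Q = S.T true`, `wP k = S.w k.1`, `wQ j = S.w j.1`,
`ψ j k x = conj (v.1 x k.1 j.1)` (weight `w j - w k`, `HasWt.conj`); the inequality `hcard` follows from
`Good.ineq` and `Good.pos` (`0 < R ≤ 2 * 3^n * Δ` gives `0 < Δ`; `{k : S.T false // w k = 0}` has the same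
cardinality as `{j // q j = false ∧ w j = 0}`). Get `x` and `z ≠ 0`; let `y : S.J → ℂ` be `z` extended by zero to
indices of type `true`. With `M = (v * q * star v - p).1 x`, `‖M‖ ≤ ‖v * q * star v - p‖ < 1` (`FA.norm_apply_le`), and
`∑ k, M j k * y k = - y j` for all `j`. So `(1 + M)` kills `y ≠ 0`, but `1 + M` is a unit
(`isUnit_one_sub_of_norm_lt_one` or similar applied to `-M`). Contradiction.
-/

namespace Pool.Agent.Helper9.VI

open Filter Topology
open scoped ComplexOrder ENNReal NNReal ComplexConjugate

noncomputable section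

namespace Stage

/-- a matrix of norm less than one has no eigenvector with eigenvalue `-1` -/
theorem eq_zero_of_norm_lt_one {J : Type} [Fintype J] [DecidableEq J] (M : Mx J) (hM : ‖M‖ < 1)
    (y : J → ℂ) (hy : ∀ j, ∑ k, M j k * y k = - y j) : y = 0 := by
  have hu : IsUnit (1 + M) := by
    have h := isUnit_one_sub_of_norm_lt_one (x := -M) (by rwa [norm_neg])
    rwa [sub_neg_eq_add] at h
  obtain ⟨N, hN⟩ := hu.exists_left_inv
  have h1 : ∀ j k, (1 + M) j k = (if j = k then 1 else 0) + M j k := fun j k => rfl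
  have h2 : ∀ l, ∑ k, (1 + M) l k * y k = 0 := by
    intro l
    simp only [h1, add_mul, Finset.sum_add_distrib, hy l]
    simp
  have h3 : ∀ j k, (N * (1 + M)) j k = ∑ l, N j l * (1 + M) l k := fun j k => rfl
  funext j
  have h4 : y j = ∑ k, (N * (1 + M)) j k * y k := by
    rw [hN]
    have : ∀ k, (1 : Mx J) j k = if j = k then 1 else 0 := fun k => rfl
    simp only [this]
    simp
  rw [h4]
  simp only [h3, Finset.sum_mul]
  rw [Finset.sum_comm]
  simp only [mul_assoc, ← Finset.mul_sum, h2, mul_zero, Finset.sum_const_zero]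
  rfl

theorem card_false (S : Stage) : Fintype.card {k : S.T false // S.w k.1 = 0} =
    Fintype.card {j : S.J // S.q j = false ∧ S.w j = 0} :=
  Fintype.card_congr (Equiv.subtypeSubtypeEquivSubtypeInter (fun j => S.q j = false)
    (fun j => S.w j = 0))

theorem no_comp (S : Stage) (n : ℕ) (hS : Good n S) (v : S.A) :
    ¬ ‖v * S.dg (fun b => if b then 1 else 0) * star v - S.dg (fun b => if b then 0 else 1)‖ < 1 := by
  intro hlt
  obtain ⟨τ, hτ, hτ1, -⟩ := hS.match_
  have hcard : Fintype.card (S.T true) < Fintype.card S.G +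
      Fintype.card {k : S.T false // S.w k.1 = 0} := by
    rw [S.card_false]
    have h1 := hS.ineq
    have h2 := hS.pos
    by_contra hcon
    push Not at hcon
    have h3 : ((Fintype.card {j : S.J // S.q j = false ∧ S.w j = 0} : ℤ) + Fintype.card S.G -
      Fintype.card (S.T true)) ≤ 0 := by
      have := (Nat.cast_le (α := ℤ)).2 hcon
      push_cast at this
      linarith
    have h4 : (0 : ℤ) < Fintype.card (S.T false) := by exact_mod_cast h2
    have h5 : (0 : ℤ) ≤ 2 * 3 ^ n := by positivity
    nlinarith [mul_nonneg h5 (neg_nonneg.2 h3)]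
  have hcont : ∀ (k j : S.J), Continuous fun x : X S.G => v.1 x k j := fun k j =>
    (continuous_entry S.J k j).comp v.1.continuous
  let ψ : S.T true → S.T false → C(X S.G, ℂ) := fun j k =>
    ⟨fun x => conj (v.1 x k.1 j.1), Complex.continuous_conj.comp (hcont k.1 j.1)⟩
  have hψ : ∀ j k, HasWt (S.w j.1 - S.w k.1) (ψ j k) := by
    intro j k
    have h := (v.2 k.1 j.1).conj
    rw [neg_sub] at h
    exact h
  obtain ⟨x, z, hz, hzz⟩ := common_kernel (G := S.G) (P := S.T false) (Q := S.T true)
    (fun k => S.w k.1) (fun j => S.w j.1) (fun j g => hS.nonneg j.1 g) τ hτ hτ1 hcard ψ hψ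
  let y : S.J → ℂ := fun j => if h : S.q j = false then z ⟨j, h⟩ else 0
  have hy0 : y ≠ 0 := by
    intro h
    apply hz
    funext k
    have := congrFun h k.1
    simpa [y, k.2] using this
  apply hy0
  set a := v * S.dg (fun b => if b then 1 else 0) * star v -
    S.dg (fun b => if b then 0 else 1) with ha
  refine eq_zero_of_norm_lt_one (a.1 x) (lt_of_le_of_lt (FA.norm_apply_le a.1 x) hlt) y ?_
  intro i
  -- the sum over the kernel
  have hker : ∀ j : S.J, S.q j = true → ∑ k, conj (v.1 x k j) * y k = 0 := by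
    intro j hj
    have h1 := hzz ⟨j, hj⟩
    have h2 : ∑ k, conj (v.1 x k j) * y k = ∑ k : S.T false, conj (v.1 x k.1 j) * z k := by
      have h3 : ∀ k : S.T false, conj (v.1 x k.1 j) * z k = conj (v.1 x k.1 j) * y k.1 := by
        intro k
        have : y k.1 = z k := by simp [y, k.2]
        rw [this]
      rw [Finset.sum_congr rfl fun k _ => h3 k]
      rw [← Finset.sum_subtype (Finset.univ.filter fun k => S.q k = false) (by simp)
        (fun k => conj (v.1 x k j) * y k)]
      symm
      refine Finset.sum_filter_of_ne ?_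
      intro k _ hk
      by_contra hq
      apply hk
      have : y k = 0 := by simp [y, hq]
      rw [this, mul_zero]
    rw [h2]
    exact h1
  have hent : ∀ k, a.1 x i k = ∑ j, (if S.q j = true then v.1 x i j * conj (v.1 x k j) else 0) -
      (if i = k then (if S.q i = true then 0 else 1) else 0) := by
    intro k
    have e1 : a.1 x i k = ∑ j, (∑ l, v.1 x i l * (S.dg (fun b => if b then 1 else 0)).1 x l j) *
        conj (v.1 x k j) - (S.dg (fun b => if b then 0 else 1)).1 x i k := rfl
    rw [e1, dg_apply]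
    congr 1
    refine Finset.sum_congr rfl fun j _ => ?_
    have e2 : ∑ l, v.1 x i l * (S.dg (fun b => if b then 1 else 0)).1 x l j =
        v.1 x i j * (if S.q j = true then 1 else 0) := by
      rw [Finset.sum_eq_single j]
      · rw [dg_apply, if_pos rfl]
      · intro l _ hl
        rw [dg_apply, if_neg hl, mul_zero]
      · simp
    rw [e2]
    by_cases hq : S.q j = true
    · rw [if_pos hq, if_pos hq, mul_one]
    · rw [if_neg hq, if_neg hq, mul_zero, zero_mul]
  simp only [hent, sub_mul, Finset.sum_sub_distrib, Finset.sum_mul]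
  rw [Finset.sum_comm]
  have e3 : ∑ j, ∑ k, (if S.q j = true then v.1 x i j * conj (v.1 x k j) else 0) * y k = 0 := by
    refine Finset.sum_eq_zero fun j _ => ?_
    by_cases hq : S.q j = true
    · simp only [if_pos hq, mul_assoc, ← Finset.mul_sum, hker j hq, mul_zero]
    · simp only [if_neg hq, zero_mul, Finset.sum_const_zero]
  rw [e3, zero_sub]
  congr 1
  rw [Finset.sum_eq_single i]
  · rw [if_pos rfl]
    by_cases hq : S.q i = true
    · rw [if_pos hq, zero_mul]
      have : y i = 0 := by simp [y, hq]
      rw [this]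
    · rw [if_neg hq, one_mul]
  · intro k _ hk
    rw [if_neg (Ne.symm hk), zero_mul]
  · simp

end Stage

end

end Pool.Agent.Helper9.VI
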