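import Pool.Agent.Helper9.VI.Cc.Pre

/-!
# VI-C11: evaluation at a diagonal point

PROOF. `norm_phi_ext`: with `N = blk (eL i) 1` (norm `≤ 1`, `norm_blk`) and `z' = ext c z`:
`N * (∑ i', alpha c i' a + ∑ t, beta c t B).1 z' = blk (eL i) (a.1 z)` (`res_ext`, products of blocks with disjoint
ranges are zero), norm `‖a.1 z‖` (`norm_blk`).
-/

namespace Pool.Agent.Helper9.VI

open Filter Topology
open scoped ComplexOrder ENNReal NNReal ComplexConjugate

noncomputable section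

namespace Stage

theorem norm_one_le4 (J : Type) [Fintype J] [DecidableEq J] : ‖(1 : Mx J)‖ ≤ 1 := by
  have h : ‖star (1 : Mx J) * 1‖ = ‖(1 : Mx J)‖ * ‖(1 : Mx J)‖ := CStarRing.norm_star_mul_self
  rw [star_one, one_mul] at h
  nlinarith [norm_nonneg (1 : Mx J)]

theorem alpha_one_mul4 (S : Stage) (c : ℕ) (i : Fin c) (a : S.A) (B : Mx S.J) :
    S.alpha c i 1 * (∑ i, S.alpha c i a + ∑ t, S.beta c t B) = S.alpha c i a := by
  rw [mul_add, Finset.mul_sum, Finset.mul_sum, Finset.sum_eq_single i, ← map_mul, one_mul,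
    Finset.sum_eq_zero, add_zero]
  · intro t _
    exact S.alpha_mul_beta c i t 1 B
  · intro j _ hj
    exact S.alpha_mul_alpha c i j (Ne.symm hj) 1 a
  · intro h
    exact absurd (Finset.mem_univ i) h

theorem norm_phi_ext (S : Stage) (c : ℕ) (i : Fin c) (a : S.A) (B : Mx S.J) (z : X S.G) :
    ‖a.1 z‖ ≤ ‖(∑ i, S.alpha c i a + ∑ t, S.beta c t B).1 (S.ext c z)‖ := by
  have h := congrArg (fun b : (S.next c).A => b.1 (S.ext c z)) (S.alpha_one_mul4 c i a B)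
  have h1 : (S.alpha c i 1).1 (S.ext c z) *
      (∑ i, S.alpha c i a + ∑ t, S.beta c t B).1 (S.ext c z) = blk (S.eL c i) (a.1 z) := h
  have h2 : (S.alpha c i 1).1 (S.ext c z) = blk (S.eL c i) 1 := rfl
  have h3 : ‖(S.alpha c i 1).1 (S.ext c z)‖ ≤ 1 := by
    rw [h2, norm_blk]
    exact norm_one_le4 _
  calc ‖a.1 z‖ = ‖blk (S.eL c i) (a.1 z)‖ := (norm_blk _ _).symm
    _ = ‖(S.alpha c i 1).1 (S.ext c z) *
      (∑ i, S.alpha c i a + ∑ t, S.beta c t B).1 (S.ext c z)‖ := by rw [h1]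
    _ ≤ ‖(S.alpha c i 1).1 (S.ext c z)‖ *
      ‖(∑ i, S.alpha c i a + ∑ t, S.beta c t B).1 (S.ext c z)‖ := norm_mul_le _ _
    _ ≤ 1 * ‖(∑ i, S.alpha c i a + ∑ t, S.beta c t B).1 (S.ext c z)‖ :=
        mul_le_mul_of_nonneg_right h3 (norm_nonneg _)
    _ = _ := one_mul _

end Stage

end

end Pool.Agent.Helper9.VI
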