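import Pool.Agent.Helper9.VI.Cc.PhiExt

/-!
# VI-C12: the choice of the points

PROOF. `exists_points`: `X (stage n).G` is a nonempty separable metric space; let `den n : ℕ → X (stage n).G` be
`TopologicalSpace.denseSeq`. Define by recursion on `l` the points `P l n k : X (stage l).G`:
`P 0 n k = den 0 k`, `P (l+1) n k = if n ≤ l then (stage l).ext (7*3^l) (P l n k) else den (l+1) k`. Then `P n n k = den n k` and
`P (n+m+1) n k = ext (P (n+m) n k)`. Let `x l = P l l.unpair.1 l.unpair.2`.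
For `a : (stage n).A`, `k`: by induction on `m` and `norm_phi_ext`: `‖a.1 (den n k)‖ ≤ ‖(iter n m a).1 (P (n+m) n k)‖`
(`iter n (m+1) a = phi (n+m) (iter n m a)`, `Pre.phi_apply`). Given `a`, `ε`: choose `k` with `‖a‖ - ε < ‖a.1 (den n k)‖`
(density, `FA.norm_le`; if `‖a‖ - ε < 0` any `k`), `l = Nat.pair n k ≥ n` (`Nat.left_le_pair`), `m = l - n`; then
`x (n + m) = P (n+m) n k` (`Nat.unpair_pair`; only the natural number arguments are rewritten).
-/

namespace Pool.Agent.Helper9.VI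

open Filter Topology
open scoped ComplexOrder ENNReal NNReal ComplexConjugate

noncomputable section

namespace Stage

/-- a dense sequence of points of a stage -/
def den4 (n : ℕ) (k : ℕ) : X (stage n).G := TopologicalSpace.denseSeq (X (stage n).G) k

/-- the candidate points -/
def P4 : ∀ l : ℕ, ℕ → ℕ → X (stage l).G
  | 0 => fun _ k => den4 0 k
  | l + 1 => fun n k => if n ≤ l then (stage l).ext (7 * 3 ^ l) (P4 l n k) else den4 (l + 1) k

theorem P4_self (n k : ℕ) : P4 n n k = den4 n k := by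
  cases n with
  | zero => rfl
  | succ l =>
    have h : ¬ l + 1 ≤ l := by omega
    exact if_neg h

theorem P4_succ (n m k : ℕ) :
    P4 (n + m + 1) n k = (stage (n + m)).ext (7 * 3 ^ (n + m)) (P4 (n + m) n k) := by
  have h : n ≤ n + m := by omega
  exact if_pos h

theorem norm_iter4 (x : ∀ n, X (stage n).G) (n k : ℕ) (a : (stage n).A) :
    ∀ m, ‖a.1 (den4 n k)‖ ≤
      ‖((show (stage (n + m)).A from (thePre x).iter n m a)).1 (P4 (n + m) n k)‖
  | 0 => by
    change _ ≤ ‖a.1 (P4 n n k)‖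
    rw [P4_self]
  | m + 1 => by
    refine (norm_iter4 x n k a m).trans ?_
    have h0 : 0 < 7 * 3 ^ (n + m) := by positivity
    have h := (stage (n + m)).norm_phi_ext (7 * 3 ^ (n + m)) ⟨0, h0⟩
      (show (stage (n + m)).A from (thePre x).iter n m a)
      ((thePre x).ev (n + m) ((thePre x).iter n m a)) (P4 (n + m) n k)
    rw [← P4_succ] at h
    exact h

theorem exists_den4 (n : ℕ) (a : (stage n).A) (ε : ℝ) (hε : 0 < ε) :
    ∃ k, ‖a‖ - ε < ‖a.1 (den4 n k)‖ := by
  by_contra hcon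
  push Not at hcon
  have hd : DenseRange (den4 n) := TopologicalSpace.denseRange_denseSeq (X (stage n).G)
  have hcl : ∀ z, ‖a.1 z‖ ≤ ‖a‖ - ε := by
    intro z
    have hcl : IsClosed {z : X (stage n).G | ‖a.1 z‖ ≤ ‖a‖ - ε} :=
      isClosed_le (continuous_norm.comp (FA.continuous a.1)) continuous_const
    have hsub : Set.range (den4 n) ⊆ {z : X (stage n).G | ‖a.1 z‖ ≤ ‖a‖ - ε} := by
      rintro _ ⟨k, rfl⟩
      exact hcon k
    exact (hcl.closure_subset_iff.2 hsub) (hd z)
  have hnn : 0 ≤ ‖a‖ - ε := (norm_nonneg _).trans (hcl (den4 n 0))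
  have h1 : ‖a.1‖ ≤ ‖a‖ - ε := FA.norm_le a.1 hnn hcl
  have h2 : ‖a‖ = ‖a.1‖ := rfl
  linarith

theorem exists_points : ∃ x : ∀ n, X (stage n).G, ∀ (n : ℕ) (a : (stage n).A) (ε : ℝ), 0 < ε →
    ∃ k, ‖a‖ - ε < ‖(thePre x).ev (n + k) ((thePre x).iter n k a)‖ := by
  refine ⟨fun l => P4 l l.unpair.1 l.unpair.2, fun n a ε hε => ?_⟩
  obtain ⟨k, hk⟩ := exists_den4 n a ε hε
  have hle : n ≤ Nat.pair n k := Nat.left_le_pair n k
  refine ⟨Nat.pair n k - n, hk.trans_le ?_⟩
  refine (norm_iter4 (fun l => P4 l l.unpair.1 l.unpair.2) n k a (Nat.pair n k - n)).trans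
    (le_of_eq ?_)
  have hu : (n + (Nat.pair n k - n)).unpair = (n, k) := by
    rw [Nat.add_sub_cancel' hle, Nat.unpair_pair]
  have hP : P4 (n + (Nat.pair n k - n)) n k = P4 (n + (Nat.pair n k - n))
      (n + (Nat.pair n k - n)).unpair.1 (n + (Nat.pair n k - n)).unpair.2 := by
    rw [hu]
  rw [hP]
  rfl

end Stage

end

end Pool.Agent.Helper9.VI
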