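import Pool.Agent.Helper9.VI.Cc.Maps
import Pool.Agent.Helper9.VI.Cc.NoComp
import Pool.Agent.Helper9.VI.Sys

/-!
# The sequence of stages and the system `thePre`
-/

namespace Pool.Agent.Helper9.VI

open Filter Topology
open scoped ComplexOrder ENNReal NNReal ComplexConjugate

noncomputable section

namespace Stage

/-- the sequence of stages -/
def stage : ℕ → Stage
  | 0 => base
  | n + 1 => (stage n).next (7 * 3 ^ n)

theorem good_stage : ∀ n, Good n (stage n)
  | 0 => good_base
  | n + 1 => good_next n (stage n) (good_stage n)

instance nonempty_J (n : ℕ) : Nonempty (stage n).J := by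
  have h := (good_stage n).pos
  obtain ⟨j⟩ := Fintype.card_pos_iff.1 h
  exact ⟨j.1⟩

/-- the system for a given sequence of points -/
def thePre (x : ∀ n, X (stage n).G) : Pre where
  A n := (stage n).A
  J n := (stage n).J
  c n := 7 * 3 ^ n
  c_pos n := by positivity
  ev n := (stage n).ev (x n)
  α n i := (stage n).alpha (7 * 3 ^ n) i
  β n t := (stage n).beta (7 * 3 ^ n) t
  αα n i j h a b := (stage n).alpha_mul_alpha _ i j h a b
  αβ n i t a B := (stage n).alpha_mul_beta _ i t a B
  βα n i t a B := (stage n).beta_mul_alpha _ i t a B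
  ββ n t s h B C := (stage n).beta_mul_beta _ t s h B C
  sum_one n := (stage n).sum_one _
  norm_α n i a := (stage n).norm_alpha _ i a

/-- the diagonal extension of a point -/
def ext (S : Stage) (c : ℕ) (z : X S.G) : X (S.next c).G :=
  Sum.elim (fun p => z p.1) (fun _ => Classical.arbitrary S3)

theorem res_ext (S : Stage) (c : ℕ) (i : Fin c) (z : X S.G) : S.res c i (S.ext c z) = z := rfl

end Stage

end

end Pool.Agent.Helper9.VI
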