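import Pool.Agent.Helper9.VI.Cc.Blk
import Pool.Agent.Helper9.VI.Top.Defs

/-!
# Stages: equivariant matrix functions and the connecting maps
-/

namespace Pool.Agent.Helper9.VI

open Filter Topology
open scoped ComplexOrder ENNReal NNReal ComplexConjugate

noncomputable section

/-- A stage: factors `G`, matrix indices `J`, weights `w`, and the type `q` of an index. -/
structure Stage where
  G : Type
  J : Type
  [fG : Fintype G]
  [dG : DecidableEq G]
  [fJ : Fintype J]
  [dJ : DecidableEq J]
  w : J → G → ℤ
  q : J → Bool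

attribute [instance] Stage.fG Stage.dG Stage.fJ Stage.dJ

section chr

variable {G : Type} [Fintype G]

theorem chr_add (l : G → Circle) (v w : G → ℤ) : chr l (v + w) = chr l v * chr l w := by
  simp only [chr, Pi.add_apply, ← Finset.prod_mul_distrib]
  exact Finset.prod_congr rfl fun g _ => zpow_add₀ (Circle.coe_ne_zero _) _ _

theorem chr_zero (l : G → Circle) : chr l 0 = 1 := by simp [chr]

theorem chr_neg (l : G → Circle) (w : G → ℤ) : chr l (-w) = conj (chr l w) := by
  simp only [chr, Pi.neg_apply, map_prod, map_zpow₀]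
  refine Finset.prod_congr rfl fun g _ => ?_
  rw [zpow_neg, ← inv_zpow]
  congr 1
  rw [← Circle.coe_inv, Circle.coe_inv_eq_conj]

theorem HasWt.mul {v w : G → ℤ} {f h : X G → ℂ} (hf : HasWt v f) (hh : HasWt w h) :
    HasWt (v + w) (fun x => f x * h x) := by
  intro l x
  simp only [hf l x, hh l x, chr_add]
  ring

theorem HasWt.sum {ι : Type} (T : Finset ι) {w : G → ℤ} {f : ι → X G → ℂ}
    (hf : ∀ i ∈ T, HasWt w (f i)) : HasWt w (fun x => ∑ i ∈ T, f i x) := by
  intro l x
  simp only [Finset.mul_sum]
  exact Finset.sum_congr rfl fun i hi => hf i hi l x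

theorem HasWt.conj {w : G → ℤ} {f : X G → ℂ} (hf : HasWt w f) :
    HasWt (-w) (fun x => conj (f x)) := by
  intro l x
  simp only [hf l x, map_mul, chr_neg]

theorem HasWt.zero (w : G → ℤ) : HasWt w (fun _ : X G => (0 : ℂ)) := fun l x => by simp

theorem HasWt.add {w : G → ℤ} {f h : X G → ℂ} (hf : HasWt w f) (hh : HasWt w h) :
    HasWt w (fun x => f x + h x) := by
  intro l x
  simp only [hf l x, hh l x, mul_add]

theorem HasWt.smul {w : G → ℤ} {f : X G → ℂ} (hf : HasWt w f) (c : ℂ) :
    HasWt w (fun x => c * f x) := by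
  intro l x
  simp only [hf l x]; ring

theorem HasWt.const (c : ℂ) : HasWt (G := G) 0 (fun _ : X G => c) := fun l x => by
  simp [chr_zero]

end chr

/-- continuous functions `X G → Mx J` -/
def FA (G J : Type) [Fintype G] [Fintype J] [DecidableEq J] : Type := C(X G, Mx J)

instance (G J : Type) [Fintype G] [Fintype J] [DecidableEq J] : CStarAlgebra (FA G J) :=
  inferInstanceAs (CStarAlgebra C(X G, Mx J))

instance (G J : Type) [Fintype G] [Fintype J] [DecidableEq J] :
    FunLike (FA G J) (X G) (Mx J) :=
  inferInstanceAs (FunLike C(X G, Mx J) (X G) (Mx J))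

/-- the element of `FA` given by a continuous function -/
def FA.mk {G J : Type} [Fintype G] [Fintype J] [DecidableEq J] (f : C(X G, Mx J)) : FA G J := f

theorem FA.continuous {G J : Type} [Fintype G] [Fintype J] [DecidableEq J] (a : FA G J) :
    Continuous a := ContinuousMap.continuous (a : C(X G, Mx J))

@[ext] theorem FA.ext {G J : Type} [Fintype G] [Fintype J] [DecidableEq J] {a b : FA G J}
    (h : ∀ x, a x = b x) : a = b := DFunLike.ext a b h

section FAlemmas

variable {G J : Type} [Fintype G] [Fintype J] [DecidableEq J]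

theorem FA.continuous_eval (x : X G) : Continuous fun a : FA G J => a x :=
  continuous_eval_const (F := C(X G, Mx J)) x

theorem FA.mk_apply (f : C(X G, Mx J)) (x : X G) : FA.mk f x = f x := rfl

theorem FA.mul_apply (a b : FA G J) (x : X G) : (a * b) x = a x * b x := rfl

theorem FA.add_apply (a b : FA G J) (x : X G) : (a + b) x = a x + b x := rfl

theorem FA.sub_apply (a b : FA G J) (x : X G) : (a - b) x = a x - b x := rfl

theorem FA.smul_apply (r : ℂ) (a : FA G J) (x : X G) : (r • a) x = r • a x := rfl

theorem FA.star_apply (a : FA G J) (x : X G) : (star a) x = star (a x) := rfl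

theorem FA.one_apply (x : X G) : (1 : FA G J) x = 1 := rfl

theorem FA.zero_apply (x : X G) : (0 : FA G J) x = 0 := rfl

theorem FA.sum_apply {ι : Type} (T : Finset ι) (f : ι → FA G J) (x : X G) :
    (∑ i ∈ T, f i) x = ∑ i ∈ T, f i x := by
  induction T using Finset.cons_induction with
  | empty => simp [FA.zero_apply]
  | cons i T hi ih => rw [Finset.sum_cons, Finset.sum_cons, FA.add_apply, ih]

theorem FA.norm_apply_le (a : FA G J) (x : X G) : ‖a x‖ ≤ ‖a‖ :=
  ContinuousMap.norm_coe_le_norm (a : C(X G, Mx J)) x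

theorem FA.norm_le (a : FA G J) {r : ℝ} (hr : 0 ≤ r) (h : ∀ x, ‖a x‖ ≤ r) : ‖a‖ ≤ r :=
  (ContinuousMap.norm_le (a : C(X G, Mx J)) hr).2 h

end FAlemmas

namespace Stage

/-- equivariant matrix functions -/
def alg (S : Stage) : StarSubalgebra ℂ (FA S.G S.J) where
  carrier := {a | ∀ j k, HasWt (S.w j - S.w k) (fun x => a x j k)}
  mul_mem' {a b} ha hb j k := by
    have : ∀ x, (a * b) x j k = ∑ i, a x j i * b x i k := fun x => rfl
    simp only [this]
    refine HasWt.sum _ fun i _ => ?_
    have h := (ha j i).mul (hb i k)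
    rwa [sub_add_sub_cancel] at h
  add_mem' {a b} ha hb j k := (ha j k).add (hb j k)
  algebraMap_mem' r j k := by
    change HasWt _ (fun _ : X S.G => if j = k then r else 0)
    by_cases h : j = k
    · subst h
      simp only [if_true, sub_self]
      exact HasWt.const r
    · simp only [if_neg h]
      exact HasWt.zero _
  star_mem' {a} ha j k := by
    have h := (ha k j).conj
    rw [neg_sub] at h
    exact h

theorem mem_alg (S : Stage) (a : FA S.G S.J) :
    a ∈ S.alg ↔ ∀ j k, HasWt (S.w j - S.w k) (fun x => a x j k) := Iff.rfl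

theorem continuous_entry (J : Type) (j k : J) : Continuous (fun B : Mx J => B j k) := by
  change Continuous (fun B : Matrix J J ℂ => B j k)
  fun_prop

instance isClosed_alg (S : Stage) : IsClosed (S.alg : Set (FA S.G S.J)) := by
  have : (S.alg : Set (FA S.G S.J)) =
      ⋂ j, ⋂ k, ⋂ l, ⋂ x, {a | a (act l x) j k = chr l (S.w j - S.w k) * a x j k} := by
    ext a
    simp only [SetLike.mem_coe, mem_alg, HasWt, Set.mem_iInter, Set.mem_ofPred_eq]
  rw [this]
  refine isClosed_iInter fun j => isClosed_iInter fun k => isClosed_iInter fun l =>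
    isClosed_iInter fun x => ?_
  refine isClosed_eq ?_ ?_
  · exact (continuous_entry S.J j k).comp (FA.continuous_eval _)
  · exact continuous_const.mul
      ((continuous_entry S.J j k).comp (FA.continuous_eval _))

/-- the C*-algebra of a stage -/
abbrev A (S : Stage) : Type := S.alg

/-- evaluation at a point -/
def ev (S : Stage) (x : X S.G) : S.A →⋆ₐ[ℂ] Mx S.J where
  toFun a := a.1 x
  map_one' := rfl
  map_mul' _ _ := rfl
  map_zero' := rfl
  map_add' _ _ := rfl
  commutes' _ := rfl
  map_star' _ := rfl

/-- the next stage -/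
def next (S : Stage) (c : ℕ) : Stage where
  G := (S.G × Fin c) ⊕ ({j : S.J // S.q j = true} × Fin c)
  J := (S.J × Fin c) ⊕ (S.J × Option (Fin c))
  w := Sum.elim
    (fun p => Sum.elim (fun r => if r.2 = p.2 then S.w p.1 r.1 else 0) (fun _ => 0))
    (fun p => match p.2 with
      | none => 0
      | some _ => Sum.elim (fun _ => 0) (fun _ => 1))
  q := Sum.elim (fun p => S.q p.1) (fun p => S.q p.1)

/-- the first family of blocks -/
def eL (S : Stage) (c : ℕ) (i : Fin c) : S.J ↪ (S.next c).J :=
  ⟨fun j => Sum.inl (j, i), fun _ _ h => congrArg Prod.fst (Sum.inl.inj h)⟩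

/-- the second family of blocks -/
def eR (S : Stage) (c : ℕ) (t : Option (Fin c)) : S.J ↪ (S.next c).J :=
  ⟨fun j => Sum.inr (j, t), fun _ _ h => congrArg Prod.fst (Sum.inr.inj h)⟩

/-- the coordinate projection number `i` -/
def res (S : Stage) (c : ℕ) (i : Fin c) (x : X (S.next c).G) : X S.G := fun g => x (Sum.inl (g, i))

theorem continuous_res (S : Stage) (c : ℕ) (i : Fin c) : Continuous (S.res c i) :=
  continuous_pi fun g => continuous_apply (Sum.inl (g, i) : (S.next c).G)

/-- restriction of the torus element -/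
def resl (S : Stage) (c : ℕ) (i : Fin c) (l : (S.next c).G → Circle) : S.G → Circle :=
  fun g => l (Sum.inl (g, i))

theorem res_act (S : Stage) (c : ℕ) (i : Fin c) (l : (S.next c).G → Circle)
    (x : X (S.next c).G) : S.res c i (act l x) = act (S.resl c i l) (S.res c i x) := rfl

theorem chr_next (S : Stage) (c : ℕ) (i : Fin c) (l : (S.next c).G → Circle) (j k : S.J) :
    chr l ((S.next c).w (S.eL c i j) - (S.next c).w (S.eL c i k)) =
      chr (S.resl c i l) (S.w j - S.w k) := by
  have h : ∀ f : (S.next c).G → ℂ, ∏ g, f g =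
      (∏ p : S.G × Fin c, f (Sum.inl p)) * ∏ p : {j : S.J // S.q j = true} × Fin c, f (Sum.inr p) :=
    fun f => Fintype.prod_sum_type f
  simp only [chr, h]
  have h1 : ∏ p : {j : S.J // S.q j = true} × Fin c, ((l (Sum.inr p) : Circle) : ℂ) ^
      (((S.next c).w (S.eL c i j) - (S.next c).w (S.eL c i k)) (Sum.inr p)) = 1 := by
    refine Finset.prod_eq_one fun p _ => ?_
    have : ((S.next c).w (S.eL c i j) - (S.next c).w (S.eL c i k)) (Sum.inr p) = 0 := by
      change (0 : ℤ) - 0 = 0
      rfl
    rw [this, zpow_zero]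
  rw [h1, mul_one, Fintype.prod_prod_type]
  refine Finset.prod_congr rfl fun g _ => ?_
  rw [Finset.prod_eq_single i]
  · have : ((S.next c).w (S.eL c i j) - (S.next c).w (S.eL c i k)) (Sum.inl (g, i)) =
        (S.w j - S.w k) g := by
      change (if i = i then S.w j g else 0) - (if i = i then S.w k g else 0) = _
      simp
    rw [this]
    rfl
  · intro i' _ hi'
    have : ((S.next c).w (S.eL c i j) - (S.next c).w (S.eL c i k)) (Sum.inl (g, i')) = 0 := by
      change (if i' = i then S.w j g else 0) - (if i' = i then S.w k g else 0) = 0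
      simp [hi']
    rw [this, zpow_zero]
  · simp

theorem continuous_blk {J J' : Type} [Fintype J] [DecidableEq J] [Fintype J'] [DecidableEq J']
    (e : J ↪ J') : Continuous (blk e) := by
  refine (AddMonoidHomClass.continuous_of_bound (blk e) 1 fun B => ?_)
  rw [norm_blk, one_mul]

/-- the map `α i`: pull back along the coordinate projection, put in the block `i` -/
def alpha (S : Stage) (c : ℕ) (i : Fin c) : S.A →⋆ₙₐ[ℂ] (S.next c).A where
  toFun a := ⟨⟨fun x => blk (S.eL c i) (a.1 (S.res c i x)),
      (continuous_blk _).comp (a.1.continuous.comp (S.continuous_res c i))⟩, by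
    intro j' k' l x
    change blk (S.eL c i) (a.1 (S.res c i (act l x))) j' k' =
      chr l _ * blk (S.eL c i) (a.1 (S.res c i x)) j' k'
    by_cases hj : ∃ j, j' = S.eL c i j
    · by_cases hk : ∃ k, k' = S.eL c i k
      · obtain ⟨j, rfl⟩ := hj
        obtain ⟨k, rfl⟩ := hk
        rw [blk_emb, blk_emb, S.res_act, S.chr_next]
        exact a.2 j k _ _
      · rw [blk_eq_zero _ _ _ _ (Or.inr (by simpa using hk)),
          blk_eq_zero _ _ _ _ (Or.inr (by simpa using hk)), mul_zero]
    · rw [blk_eq_zero _ _ _ _ (Or.inl (by simpa using hj)),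
        blk_eq_zero _ _ _ _ (Or.inl (by simpa using hj)), mul_zero]⟩
  map_smul' r a := by
    apply Subtype.ext
    ext1 x
    exact map_smul (blk (S.eL c i)) r _
  map_zero' := by
    apply Subtype.ext
    ext1 x
    exact map_zero (blk (S.eL c i))
  map_add' a b := by
    apply Subtype.ext
    ext1 x
    exact map_add (blk (S.eL c i)) _ _
  map_mul' a b := by
    apply Subtype.ext
    ext1 x
    exact map_mul (blk (S.eL c i)) _ _
  map_star' a := by
    apply Subtype.ext
    ext1 x
    exact map_star (blk (S.eL c i)) _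

theorem alpha_apply (S : Stage) (c : ℕ) (i : Fin c) (a : S.A) (x : X (S.next c).G) :
    (S.alpha c i a).1 x = blk (S.eL c i) (a.1 (S.res c i x)) := rfl

theorem w_eR (S : Stage) (c : ℕ) (t : Option (Fin c)) (j k : S.J) :
    (S.next c).w (S.eR c t j) = (S.next c).w (S.eR c t k) := by
  rfl

/-- the map `β t`: constant functions in the block `t` of the second family -/
def beta (S : Stage) (c : ℕ) (t : Option (Fin c)) : Mx S.J →⋆ₙₐ[ℂ] (S.next c).A where
  toFun B := ⟨ContinuousMap.const _ (blk (S.eR c t) B), by
    intro j' k' l x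
    change blk (S.eR c t) B j' k' = chr l _ * blk (S.eR c t) B j' k'
    by_cases hj : ∃ j, j' = S.eR c t j
    · by_cases hk : ∃ k, k' = S.eR c t k
      · obtain ⟨j, rfl⟩ := hj
        obtain ⟨k, rfl⟩ := hk
        rw [S.w_eR c t j k, sub_self, chr_zero, one_mul]
      · rw [blk_eq_zero _ _ _ _ (Or.inr (by simpa using hk)), mul_zero]
    · rw [blk_eq_zero _ _ _ _ (Or.inl (by simpa using hj)), mul_zero]⟩
  map_smul' r B := by
    apply Subtype.ext
    ext1 x
    exact map_smul (blk (S.eR c t)) r _
  map_zero' := by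
    apply Subtype.ext
    ext1 x
    exact map_zero (blk (S.eR c t))
  map_add' a b := by
    apply Subtype.ext
    ext1 x
    exact map_add (blk (S.eR c t)) _ _
  map_mul' a b := by
    apply Subtype.ext
    ext1 x
    exact map_mul (blk (S.eR c t)) _ _
  map_star' a := by
    apply Subtype.ext
    ext1 x
    exact map_star (blk (S.eR c t)) _

theorem beta_apply (S : Stage) (c : ℕ) (t : Option (Fin c)) (B : Mx S.J) (x : X (S.next c).G) :
    (S.beta c t B).1 x = blk (S.eR c t) B := rfl

/-- basic projections: constant rank one projections on indices of weight zero -/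
def basic (S : Stage) : Set S.A :=
  {a | ∃ v : S.J → ℂ, ∑ j, ‖v j‖ ^ 2 = 1 ∧ (∀ j, v j ≠ 0 → S.w j = 0) ∧
    ∀ x j k, a.1 x j k = v j * conj (v k)}

end Stage

end

end Pool.Agent.Helper9.VI
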