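import Pool.Agent.Helper9.VI.Cc.Weights

/-!
# VI-C5: tracial functionals on `S.A` and on `(S.next c).A`

PROOF. `unit j` is the diagonal matrix unit of `S.A`. `unit_equiv`: for indices `j, k` take `f_i` of weight `w k - w j`
with `∑ |f_i|² = 1` (`exists_wt`), `u_i x a b = f_i x` if `a = k, b = j`, zero otherwise; `star u_i * u_i = |f_i|² e_jj`,
`u_i * star u_i = |f_i|² e_kk`. So a tracial functional `σ` with `σ 1 = 1` has `σ (unit j) = 1 / card J`
(`∑ j, unit j = 1`).
`trace_beta`: `B ↦ σ (beta c t B)` is a tracial linear functional on matrices, so it is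
`B.tr * κ` with `κ = σ (beta c t (single entry))= σ (unit (eR t j))` (matrix units), and
`card (S.next c).J = card S.J * (2 c + 1)`.
`unit_diag`: in addition all `star u_i * u_i`, `u_i * star u_i` are diagonal.
-/

namespace Pool.Agent.Helper9.VI

open Filter Topology
open scoped ComplexOrder ENNReal NNReal ComplexConjugate

noncomputable section

/-- matrix unit -/
def mu8 {J : Type} [Fintype J] [DecidableEq J] (j k : J) : Mx J :=
  CStarMatrix.ofMatrix (Matrix.single j k 1)

theorem mu8_apply {J : Type} [Fintype J] [DecidableEq J] (j k a b : J) :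
    mu8 j k a b = if a = j ∧ b = k then (1 : ℂ) else 0 := by
  change Matrix.single j k (1 : ℂ) a b = _
  rw [Matrix.single_apply]
  simp only [eq_comm]

theorem mxsum8 {ι J : Type} [Fintype J] [DecidableEq J] (T : Finset ι) (f : ι → Mx J)
    (a b : J) : (∑ i ∈ T, f i) a b = ∑ i ∈ T, f i a b := by
  classical
  induction T using Finset.induction_on with
  | empty => rfl
  | insert i T hi ih =>
    rw [Finset.sum_insert hi, Finset.sum_insert hi, ← ih]
    rfl

theorem mxmul8 {J : Type} [Fintype J] [DecidableEq J] (B C : Mx J) (a b : J) :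
    (B * C) a b = ∑ c, B a c * C c b := rfl

theorem mxstar8 {J : Type} [Fintype J] [DecidableEq J] (B : Mx J) (a b : J) :
    (star B) a b = conj (B b a) := rfl

theorem mxsmul8 {J : Type} [Fintype J] [DecidableEq J] (r : ℂ) (B : Mx J) (a b : J) :
    (r • B) a b = r * B a b := rfl

theorem mxone8 {J : Type} [Fintype J] [DecidableEq J] (a b : J) :
    (1 : Mx J) a b = if a = b then 1 else 0 := rfl

theorem mx_eq_sum8 {J : Type} [Fintype J] [DecidableEq J] (B : Mx J) :
    B = ∑ j, ∑ k, B j k • mu8 j k := by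
  ext a b
  rw [mxsum8]
  simp only [mxsum8, mxsmul8, mu8_apply]
  rw [Finset.sum_eq_single a, Finset.sum_eq_single b] <;> simp +contextual [eq_comm]

theorem mu8_mul {J : Type} [Fintype J] [DecidableEq J] (j k : J) :
    mu8 j j * mu8 j k = mu8 j k := by
  ext a b
  rw [mxmul8]
  simp only [mu8_apply]
  rw [Finset.sum_eq_single j]
  · by_cases ha : a = j <;> by_cases hb : b = k <;> simp [ha, hb]
  · intro c _ hc
    simp [hc]
  · simp

theorem mu8_mul' {J : Type} [Fintype J] [DecidableEq J] {j k : J} (h : j ≠ k) :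
    mu8 j k * mu8 j j = 0 := by
  ext a b
  rw [mxmul8]
  simp only [mu8_apply]
  change _ = (0 : ℂ)
  refine Finset.sum_eq_zero fun c _ => ?_
  by_cases h1 : c = k
  · subst h1
    simp [h.symm]
  · simp [h1]

namespace Stage

/-- the diagonal unit of an index -/
def unit (S : Stage) (j : S.J) : S.A :=
  ⟨FA.mk (ContinuousMap.const _ (CStarMatrix.ofMatrix (Matrix.single j j 1))), by
    intro a b
    change HasWt (S.w a - S.w b) (fun _ : X S.G => Matrix.single j j (1 : ℂ) a b)
    by_cases h : a = j ∧ b = j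
    · obtain ⟨rfl, rfl⟩ := h
      rw [sub_self]
      exact HasWt.const _
    · have : Matrix.single j j (1 : ℂ) a b = 0 := by
        rw [Matrix.single_apply]
        rw [if_neg]
        rintro ⟨h1, h2⟩
        exact h ⟨h1.symm, h2.symm⟩
      simp only [this]
      exact HasWt.zero _⟩

theorem unit_apply (S : Stage) (j a b : S.J) (x : X S.G) :
    (S.unit j).1 x a b = if a = j ∧ b = j then 1 else 0 := mu8_apply j j a b

/-- an equivariant matrix function with one nonzero entry -/
def el8 (S : Stage) (j k : S.J) (f : C(X S.G, ℂ)) (hf : HasWt (S.w j - S.w k) f) : S.A :=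
  ⟨FA.mk ⟨fun x => f x • mu8 j k, f.continuous.smul continuous_const⟩, by
    intro a b
    change HasWt (S.w a - S.w b) (fun x : X S.G => f x * mu8 j k a b)
    by_cases h : a = j ∧ b = k
    · obtain ⟨rfl, rfl⟩ := h
      simp only [mu8_apply]
      simpa using hf
    · simp only [mu8_apply, if_neg h, mul_zero]
      exact HasWt.zero _⟩

theorem el8_apply (S : Stage) (j k : S.J) (f : C(X S.G, ℂ)) (hf : HasWt (S.w j - S.w k) f)
    (x : X S.G) (a b : S.J) : (S.el8 j k f hf).1 x a b = if a = j ∧ b = k then f x else 0 := by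
  change f x * mu8 j k a b = _
  rw [mu8_apply]
  split_ifs <;> simp

theorem ext8 (S : Stage) {a b : S.A} (h : ∀ x j k, a.1 x j k = b.1 x j k) : a = b := by
  apply Subtype.ext
  apply FA.ext
  intro x
  ext j k
  exact h x j k

theorem coesum8 (S : Stage) {ι : Type} (T : Finset ι) (f : ι → S.A) :
    ((∑ i ∈ T, f i : S.A) : FA S.G S.J) = ∑ i ∈ T, (f i : FA S.G S.J) := by
  classical
  induction T using Finset.induction_on with
  | empty => rfl
  | insert i T hi ih =>
    rw [Finset.sum_insert hi, Finset.sum_insert hi, ← ih]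
    rfl

theorem sum_apply8 (S : Stage) {ι : Type} (T : Finset ι) (f : ι → S.A) (x : X S.G) (a b : S.J) :
    (∑ i ∈ T, f i : S.A).1 x a b = ∑ i ∈ T, (f i).1 x a b := by
  rw [coesum8, FA.sum_apply, mxsum8]

theorem mul_apply8 (S : Stage) (u v : S.A) (x : X S.G) (a b : S.J) :
    (u * v).1 x a b = ∑ c, u.1 x a c * v.1 x c b := rfl

theorem star_apply8 (S : Stage) (u : S.A) (x : X S.G) (a b : S.J) :
    (star u).1 x a b = conj (u.1 x b a) := rfl

theorem unit_proj (S : Stage) (j : S.J) : IsStarProjection (S.unit j) := by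
  constructor
  · apply S.ext8
    intro x a b
    rw [mul_apply8]
    simp only [unit_apply]
    rw [Finset.sum_eq_single j]
    · by_cases ha : a = j <;> by_cases hb : b = j <;> simp [ha, hb]
    · intro c _ hc
      simp [hc]
    · simp
  · apply S.ext8
    intro x a b
    rw [star_apply8, unit_apply, unit_apply]
    by_cases ha : a = j <;> by_cases hb : b = j <;> simp [ha, hb]

theorem sum_unit (S : Stage) : ∑ j, S.unit j = 1 := by
  apply S.ext8
  intro x a b
  rw [sum_apply8]
  simp only [unit_apply]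
  change _ = (1 : Mx S.J) a b
  rw [mxone8]
  by_cases hab : a = b
  · subst hab
    simp
  · rw [if_neg hab]
    refine Finset.sum_eq_zero fun c _ => ?_
    rw [if_neg]
    rintro ⟨h1, h2⟩
    exact hab (h1.trans h2.symm)

theorem el8_star_mul (S : Stage) (j k : S.J) (f : C(X S.G, ℂ)) (hf : HasWt (S.w k - S.w j) f)
    (x : X S.G) (a b : S.J) : (star (S.el8 k j f hf) * S.el8 k j f hf).1 x a b =
      if a = j ∧ b = j then ((‖f x‖ ^ 2 : ℝ) : ℂ) else 0 := by
  rw [mul_apply8]
  simp only [star_apply8, el8_apply]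
  rw [Finset.sum_eq_single k]
  · by_cases ha : a = j <;> by_cases hb : b = j <;> simp [ha, hb]
    rw [← Complex.mul_conj', mul_comm]
  · intro c _ hc
    simp [hc]
  · simp

theorem el8_mul_star (S : Stage) (j k : S.J) (f : C(X S.G, ℂ)) (hf : HasWt (S.w k - S.w j) f)
    (x : X S.G) (a b : S.J) : (S.el8 k j f hf * star (S.el8 k j f hf)).1 x a b =
      if a = k ∧ b = k then ((‖f x‖ ^ 2 : ℝ) : ℂ) else 0 := by
  rw [mul_apply8]
  simp only [star_apply8, el8_apply]
  rw [Finset.sum_eq_single j]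
  · by_cases ha : a = k <;> by_cases hb : b = k <;> simp [ha, hb]
    rw [← Complex.mul_conj']
  · intro c _ hc
    simp [hc]
  · simp

theorem unit_equiv (S : Stage) (j k : S.J) : ∃ (n : ℕ) (u : Fin n → S.A),
    (∀ l x a b, a ≠ b → (star (u l) * u l).1 x a b = 0) ∧
    (∀ l x a b, a ≠ b → (u l * star (u l)).1 x a b = 0) ∧
    ∑ l, star (u l) * u l = S.unit j ∧ ∑ l, u l * star (u l) = S.unit k := by
  obtain ⟨n, f, hf, h1⟩ := exists_wt (S.w k - S.w j)
  refine ⟨n, fun l => S.el8 k j (f l) (hf l), ?_, ?_, ?_, ?_⟩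
  · intro l x a b hab
    rw [el8_star_mul, if_neg]
    rintro ⟨h2, h3⟩
    exact hab (h2.trans h3.symm)
  · intro l x a b hab
    rw [el8_mul_star, if_neg]
    rintro ⟨h2, h3⟩
    exact hab (h2.trans h3.symm)
  · apply S.ext8
    intro x a b
    rw [sum_apply8, unit_apply]
    simp only [el8_star_mul]
    split_ifs with h
    · rw [← Complex.ofReal_sum, h1 x, Complex.ofReal_one]
    · simp
  · apply S.ext8
    intro x a b
    rw [sum_apply8, unit_apply]
    simp only [el8_mul_star]
    split_ifs with h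
    · rw [← Complex.ofReal_sum, h1 x, Complex.ofReal_one]
    · simp

theorem trace_unit8 (S : Stage) (σ : S.A →ₗ[ℂ] ℂ) (hσ : ∀ a b, σ (a * b) = σ (b * a))
    (j k : S.J) : σ (S.unit j) = σ (S.unit k) := by
  obtain ⟨n, u, -, -, h1, h2⟩ := S.unit_equiv j k
  rw [← h1, ← h2, map_sum, map_sum]
  exact Finset.sum_congr rfl fun l _ => hσ _ _

theorem trace_unit_eq8 (S : Stage) (σ : S.A →ₗ[ℂ] ℂ) (hσ : ∀ a b, σ (a * b) = σ (b * a))
    (h1 : σ 1 = 1) (j : S.J) : (Fintype.card S.J : ℂ) * σ (S.unit j) = 1 := by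
  have h2 : ∑ k, σ (S.unit k) = 1 := by
    rw [← map_sum, sum_unit, h1]
  rw [← h2, Finset.sum_congr rfl (fun k _ => S.trace_unit8 σ hσ k j)]
  simp

theorem beta_mu8 (S : Stage) (c : ℕ) (t : Option (Fin c)) (j : S.J) :
    S.beta c t (mu8 j j) = (S.next c).unit (S.eR c t j) := by
  apply (S.next c).ext8
  intro x a b
  rw [beta_apply, unit_apply]
  by_cases ha : ∃ i, a = S.eR c t i
  · by_cases hb : ∃ i, b = S.eR c t i
    · obtain ⟨i, rfl⟩ := ha
      obtain ⟨l, rfl⟩ := hb
      rw [blk_emb, mu8_apply]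
      simp only [EmbeddingLike.apply_eq_iff_eq]
    · rw [blk_eq_zero _ _ _ _ (Or.inr (by simpa using hb)), if_neg]
      rintro ⟨-, h⟩
      exact hb ⟨j, h⟩
  · rw [blk_eq_zero _ _ _ _ (Or.inl (by simpa using ha)), if_neg]
    rintro ⟨h, -⟩
    exact ha ⟨j, h⟩

theorem card_next8 (S : Stage) (c : ℕ) :
    Fintype.card (S.next c).J = Fintype.card S.J * (2 * c + 1) := by
  have h : Fintype.card (S.next c).J =
      Fintype.card ((S.J × Fin c) ⊕ (S.J × Option (Fin c))) := rfl
  rw [h]
  simp only [Fintype.card_sum, Fintype.card_prod, Fintype.card_fin, Fintype.card_option]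
  ring

theorem trace_beta (S : Stage) (c : ℕ) (hJ : Nonempty S.J) (σ : (S.next c).A →ₗ[ℂ] ℂ)
    (hσ : ∀ a b, σ (a * b) = σ (b * a)) (h1 : σ 1 = 1) (t : Option (Fin c)) (B : Mx S.J) :
    σ (S.beta c t B) = B.tr / (Fintype.card S.J * (2 * c + 1)) := by
  obtain ⟨j0⟩ := hJ
  have hoff : ∀ j k, j ≠ k → σ (S.beta c t (mu8 j k)) = 0 := by
    intro j k hjk
    rw [← mu8_mul j k, map_mul, hσ, ← map_mul, mu8_mul' hjk, map_zero, map_zero]
  have hdiag : ∀ j, σ (S.beta c t (mu8 j j)) = 1 / (Fintype.card S.J * (2 * c + 1)) := by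
    intro j
    rw [beta_mu8]
    have h2 := (S.next c).trace_unit_eq8 σ hσ h1 (S.eR c t j)
    rw [card_next8] at h2
    push_cast at h2
    have h3 : ((Fintype.card S.J : ℂ) * (2 * c + 1)) ≠ 0 := by
      intro h0
      rw [h0, zero_mul] at h2
      exact zero_ne_one h2
    rw [eq_div_iff h3, mul_comm]
    exact h2
  conv_lhs => rw [mx_eq_sum8 B]
  rw [map_sum, map_sum]
  have h4 : ∀ j, σ (S.beta c t (∑ k, B j k • mu8 j k)) =
      B j j * (1 / (Fintype.card S.J * (2 * c + 1))) := by
    intro j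
    rw [map_sum, map_sum, Finset.sum_eq_single j]
    · rw [map_smul, map_smul, hdiag, smul_eq_mul]
    · intro k _ hk
      rw [map_smul, map_smul, hoff j k (Ne.symm hk), smul_zero]
    · simp
  rw [Finset.sum_congr rfl fun j _ => h4 j, ← Finset.sum_mul, Mx.tr, mul_one_div]

end Stage

end

end Pool.Agent.Helper9.VI
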