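import Pool.Agent.Helper9.VI.Cc.Stage

/-!
# VI-C1: functions of a given weight with square sum 1

PROOF. The property is closed under addition of weights (products of the families,
`(∑ |f_i|²)(∑ |h_j|²) = ∑ |f_i h_j|²`), under negation (conjugates), holds for `w = 0` (constant `1`) and for
`w = Pi.single g 1` (`cx g 0`, `cx g 1`, `S3.co_sq`). So it holds for all `w` (write `w = ∑ w g • single g 1`,
induction, e.g. `Finset.sum_induction` / `AddSubgroup` argument: the set of good weights is a subgroup
containing all `Pi.single g 1`).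
-/

namespace Pool.Agent.Helper9.VI

open Filter Topology
open scoped ComplexOrder ENNReal NNReal ComplexConjugate

noncomputable section

/-- the good weights, with an arbitrary finite index type -/
def WtGood {G : Type} [Fintype G] (w : G → ℤ) : Prop :=
  ∃ (ι : Type) (_ : Fintype ι) (f : ι → C(X G, ℂ)), (∀ i, HasWt w (f i)) ∧
    ∀ x, ∑ i, ‖f i x‖ ^ 2 = 1

theorem wtGood_zero {G : Type} [Fintype G] : WtGood (0 : G → ℤ) := by
  refine ⟨Unit, inferInstance, fun _ => ContinuousMap.const _ 1, fun i => ?_, fun x => by simp⟩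
  exact HasWt.const 1

theorem wtGood_neg {G : Type} [Fintype G] {w : G → ℤ} (h : WtGood w) : WtGood (-w) := by
  obtain ⟨ι, _, f, hf, hs⟩ := h
  refine ⟨ι, inferInstance, fun i => ⟨fun x => conj (f i x),
    Complex.continuous_conj.comp (f i).continuous⟩, fun i => (hf i).conj, fun x => ?_⟩
  simpa using hs x

theorem wtGood_add {G : Type} [Fintype G] {v w : G → ℤ} (hv : WtGood v) (hw : WtGood w) :
    WtGood (v + w) := by
  obtain ⟨ι, _, f, hf, hs⟩ := hv
  obtain ⟨κ, _, h, hh, ht⟩ := hw
  refine ⟨ι × κ, inferInstance, fun p => f p.1 * h p.2, fun p => (hf p.1).mul (hh p.2),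
    fun x => ?_⟩
  rw [Fintype.sum_prod_type]
  simp only [ContinuousMap.mul_apply, norm_mul, mul_pow]
  simp only [← Finset.mul_sum, ht x, mul_one, hs x]

theorem wtGood_single {G : Type} [Fintype G] [DecidableEq G] (g : G) :
    WtGood (Pi.single g (1 : ℤ)) := by
  refine ⟨Fin 2, inferInstance, fun i => cx g i, fun i l x => ?_, fun x => ?_⟩
  · have h1 : chr l (Pi.single g (1 : ℤ)) = (l g : ℂ) := by
      unfold chr
      rw [Finset.prod_eq_single g]
      · simp
      · intro b _ hb
        rw [Pi.single_eq_of_ne hb, zpow_zero]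
      · intro hg
        exact absurd (Finset.mem_univ g) hg
    rw [h1]
    change S3.co i (S3.rot (l g) (x g)) = _ * S3.co i (x g)
    unfold S3.co S3.rot
    split_ifs <;> rfl
  · rw [Fin.sum_univ_two]
    exact S3.co_sq (x g)

/-- the subgroup of good weights -/
def wtSub (G : Type) [Fintype G] : AddSubgroup (G → ℤ) where
  carrier := {w | WtGood w}
  add_mem' hv hw := wtGood_add hv hw
  zero_mem' := wtGood_zero
  neg_mem' h := wtGood_neg h

theorem exists_wt {G : Type} [Fintype G] [DecidableEq G] (w : G → ℤ) :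
    ∃ (k : ℕ) (f : Fin k → C(X G, ℂ)), (∀ i, HasWt w (f i)) ∧ ∀ x, ∑ i, ‖f i x‖ ^ 2 = 1 := by
  have hw : w ∈ wtSub G := by
    have e : w = ∑ g, w g • (Pi.single g (1 : ℤ) : G → ℤ) := by
      funext a
      rw [Finset.sum_apply, Finset.sum_eq_single a]
      · simp
      · intro b _ hb
        simp [Pi.single_eq_of_ne hb.symm]
      · intro h
        exact absurd (Finset.mem_univ a) h
    rw [e]
    exact AddSubgroup.sum_mem _ fun g _ => AddSubgroup.zsmul_mem _ (wtGood_single g) _
  obtain ⟨ι, _, f, hf, hs⟩ := hw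
  refine ⟨Fintype.card ι, fun i => f ((Fintype.equivFin ι).symm i), fun i => hf _, fun x => ?_⟩
  rw [← hs x]
  exact Equiv.sum_comp (Fintype.equivFin ι).symm fun i => ‖f i x‖ ^ 2

end

end Pool.Agent.Helper9.VI
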